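import Mathlib
import Pool.Agent.H68.Book.Core

set_option autoImplicit false
set_option linter.unusedSectionVars false
set_option linter.unusedVariables false

/-!
Pure-direction inequality for Ramsey numbers, part 1: the potential and its stability.
-/

namespace Pool.Agent.H68.Pure

open Finset
open Pool.Agent.H68.Book

variable {V : Type*} [Fintype V] [DecidableEq V]

/-- Positive part of the excess density. -/
noncomputable def gg (c : V → V → ℝ) (q : ℝ) (X : Finset V) (v : V) : ℝ :=
  max (dens c X v - q) 0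

/-- The weighted square sum. -/
noncomputable def SS (c : V → V → ℝ) (q : ℝ) (X : Finset V) (F : V → ℝ) : ℝ :=
  ∑ v, F v * gg c q X v ^ 2

/-- The potential. -/
noncomputable def Psi (c : V → V → ℝ) (q lam : ℝ) (X : Finset V) (F : V → ℝ) : ℝ :=
  (X.card : ℝ) ^ lam * SS c q X F

lemma gg_nonneg (c : V → V → ℝ) (q : ℝ) (X : Finset V) (v : V) : 0 ≤ gg c q X v :=
  le_max_right _ _

lemma gg_le_one {c : V → V → ℝ} (h1 : ∀ v w, c v w ≤ 1) {q : ℝ} (hq : 0 ≤ q)
    (X : Finset V) (v : V) : gg c q X v ≤ 1 := by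
  unfold gg
  apply max_le _ zero_le_one
  linarith [dens_le_one h1 X v]

lemma SS_nonneg {c : V → V → ℝ} {q : ℝ} {X : Finset V} {F : V → ℝ} (hF : ∀ v, 0 ≤ F v) :
    0 ≤ SS c q X F :=
  sum_nonneg fun v _ => mul_nonneg (hF v) (sq_nonneg _)

lemma Psi_nonneg {c : V → V → ℝ} {q lam : ℝ} {X : Finset V} {F : V → ℝ}
    (hF : ∀ v, 0 ≤ F v) : 0 ≤ Psi c q lam X F :=
  mul_nonneg (Real.rpow_nonneg (Nat.cast_nonneg _) _) (SS_nonneg hF)

lemma SS_le_sum {c : V → V → ℝ} (h1 : ∀ v w, c v w ≤ 1) {q : ℝ} (hq : 0 ≤ q)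
    {X : Finset V} {F : V → ℝ} (hF : ∀ v, 0 ≤ F v) : SS c q X F ≤ ∑ v, F v := by
  refine sum_le_sum fun v _ => ?_
  have h2 : gg c q X v ^ 2 ≤ 1 := pow_le_one₀ (gg_nonneg c q X v) (gg_le_one h1 hq X v)
  calc F v * gg c q X v ^ 2 ≤ F v * 1 := mul_le_mul_of_nonneg_left h2 (hF v)
    _ = F v := mul_one _

/-- The tangent inequality for `x ↦ (x - q)_+^2` with quadratic gain. -/
lemma tangent_pt (q x y : ℝ) :
    (max (x - q) 0) ^ 2 + 2 * max (x - q) 0 * (y - x) +
      (max (max (x - q) 0 - max (y - q) 0) 0) ^ 2 ≤ (max (y - q) 0) ^ 2 := by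
  rcases le_total (x - q) 0 with hx | hx
  · rw [max_eq_right hx]
    have h1 : max (0 - max (y - q) 0) 0 = 0 := by
      apply max_eq_right
      linarith [le_max_right (y - q) 0]
    rw [h1]
    nlinarith [sq_nonneg (max (y - q) 0)]
  · rw [max_eq_left hx]
    rcases le_total (y - q) 0 with hy | hy
    · rw [max_eq_right hy]
      rw [sub_zero, max_eq_left hx]
      nlinarith
    · rw [max_eq_left hy]
      rcases le_total ((x - q) - (y - q)) 0 with h | h
      · rw [max_eq_right h]
        nlinarith [sq_nonneg (y - x)]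
      · rw [max_eq_left h]
        nlinarith [sq_nonneg (y - x)]

/-- Splitting of the densities. -/
lemma dens_split {c : V → V → ℝ} {X A : Finset V} (hA : A ⊆ X) (v : V) :
    (X.card : ℝ) * dens c X v =
      (A.card : ℝ) * dens c A v + ((X \ A).card : ℝ) * dens c (X \ A) v := by
  rw [Book.card_mul_dens, Book.card_mul_dens, Book.card_mul_dens, add_comm]
  exact (sum_sdiff hA).symm

/-- Convexity with gain, summed. -/
lemma convex_gain {c : V → V → ℝ} {q : ℝ} {X A : Finset V} (hA : A ⊆ X)
    (hXne : X.Nonempty) {F : V → ℝ} (hF : ∀ v, 0 ≤ F v) :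
    (X.card : ℝ) * SS c q X F + (A.card : ℝ) *
      ∑ v, F v * (max (gg c q X v - gg c q A v) 0) ^ 2 ≤
    (A.card : ℝ) * SS c q A F + ((X \ A).card : ℝ) * SS c q (X \ A) F := by
  unfold SS
  rw [mul_sum, mul_sum, mul_sum, mul_sum, ← sum_add_distrib, ← sum_add_distrib]
  refine sum_le_sum fun v _ => ?_
  have h1 := tangent_pt q (dens c X v) (dens c A v)
  have h2 := tangent_pt q (dens c X v) (dens c (X \ A) v)
  have h3 := dens_split (c := c) hA v
  have h4 : ((X \ A).card : ℝ) + A.card = X.card := by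
    exact_mod_cast card_sdiff_add_card_eq_card hA
  set x := dens c X v
  set y := dens c A v
  set z := dens c (X \ A) v
  set a : ℝ := (A.card : ℝ)
  set b : ℝ := ((X \ A).card : ℝ)
  have ha : 0 ≤ a := Nat.cast_nonneg _
  have hb : 0 ≤ b := Nat.cast_nonneg _
  have e1 : gg c q X v = max (x - q) 0 := rfl
  have e2 : gg c q A v = max (y - q) 0 := rfl
  have e3 : gg c q (X \ A) v = max (z - q) 0 := rfl
  rw [e1, e2, e3]
  set g := max (x - q) 0
  have h5 : 0 ≤ (max (g - max (z - q) 0) 0) ^ 2 := sq_nonneg _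
  have h6 := mul_le_mul_of_nonneg_left h1 ha
  have h7 := mul_le_mul_of_nonneg_left h2 hb
  have h8 : b * (max (g - max (z - q) 0) 0) ^ 2 ≥ 0 := mul_nonneg hb h5
  have h9 : a * (g ^ 2 + 2 * g * (y - x) + (max (g - max (y - q) 0) 0) ^ 2) +
      b * (g ^ 2 + 2 * g * (z - x)) =
      (b + a) * g ^ 2 + a * (max (g - max (y - q) 0) 0) ^ 2 +
        2 * g * (a * y + b * z - (b + a) * x) := by ring
  have h10 : a * y + b * z - (b + a) * x = 0 := by
    rw [h4]; linarith
  rw [h10, h4] at h9
  have key : (X.card : ℝ) * g ^ 2 + a * (max (g - max (y - q) 0) 0) ^ 2 ≤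
      a * (max (y - q) 0) ^ 2 + b * (max (z - q) 0) ^ 2 := by nlinarith
  have := mul_le_mul_of_nonneg_left key (hF v)
  nlinarith

/-- The upper bound from maximality. -/
lemma SS_le_of_max {c : V → V → ℝ} {q lam : ℝ} {X A : Finset V} (hX : X.Nonempty)
    (hA : A.Nonempty) {F : V → ℝ} (hmax : Psi c q lam A F ≤ Psi c q lam X F) :
    SS c q A F ≤ ((A.card : ℝ) / X.card) ^ (-lam) * SS c q X F := by
  unfold Psi at hmax
  have ha : (0 : ℝ) < A.card := by exact_mod_cast hA.card_pos
  have hx : (0 : ℝ) < X.card := by exact_mod_cast hX.card_pos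
  have h1 : (0 : ℝ) < (A.card : ℝ) ^ lam := Real.rpow_pos_of_pos ha _
  have h2 : ((A.card : ℝ) / X.card) ^ (-lam) = (X.card : ℝ) ^ lam / (A.card : ℝ) ^ lam := by
    rw [Real.rpow_neg (by positivity), Real.div_rpow ha.le hx.le, inv_div]
  rw [h2, div_mul_eq_mul_div, le_div_iff₀ h1]
  linarith

/-- Stability (i). -/
lemma stab_one {c : V → V → ℝ} {q lam : ℝ} (hl0 : 0 ≤ lam) (hl1 : lam ≤ 1)
    {X A : Finset V} (hA : A ⊆ X) (hX : X.Nonempty)
    (hAne : A.Nonempty) {F : V → ℝ} (hF : ∀ v, 0 ≤ F v)
    (hmax : ∀ B : Finset V, B ⊆ X → B.Nonempty → Psi c q lam B F ≤ Psi c q lam X F)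
    {tau : ℝ} (htau : 0 < tau) (hcard : tau * X.card ≤ A.card)
    (hlt : lam * Real.log (1 / tau) ≤ 1) :
    ∑ v, F v * (max (gg c q X v - gg c q A v) 0) ^ 2 ≤
      lam * (1 + 2 * Real.log (1 / tau)) * SS c q X F := by
  have hxpos : (0 : ℝ) < X.card := by exact_mod_cast hX.card_pos
  have hapos : (0 : ℝ) < A.card := by exact_mod_cast hAne.card_pos
  have hSS : 0 ≤ SS c q X F := SS_nonneg hF
  have hac : (A.card : ℝ) ≤ X.card := by exact_mod_cast card_le_card hA
  have htau1 : tau ≤ 1 := by
    by_contra h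
    push Not at h
    nlinarith
  have hlogtau : 0 ≤ Real.log (1 / tau) := by
    apply Real.log_nonneg
    rw [le_div_iff₀ htau]
    linarith
  rcases (X \ A).eq_empty_or_nonempty with h0 | hB
  · have hEq : A = X := Subset.antisymm hA (sdiff_eq_empty_iff_subset.1 h0)
    subst hEq
    have : ∑ v, F v * (max (gg c q A v - gg c q A v) 0) ^ 2 = 0 := by
      refine sum_eq_zero fun v _ => ?_
      simp
    rw [this]
    positivity
  · have hbpos : (0 : ℝ) < (X \ A).card := by exact_mod_cast hB.card_pos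
    have hsum : ((X \ A).card : ℝ) + A.card = X.card := by
      exact_mod_cast card_sdiff_add_card_eq_card hA
    have hg := convex_gain (c := c) (q := q) hA hX hF
    have h1 := SS_le_of_max hX hAne (hmax A hA hAne)
    have h2 := SS_le_of_max hX hB (hmax (X \ A) sdiff_subset hB)
    set S := SS c q X F
    set x : ℝ := (X.card : ℝ)
    set a : ℝ := (A.card : ℝ)
    set b : ℝ := ((X \ A).card : ℝ)
    set t : ℝ := a / x with ht
    have htpos : 0 < t := by positivity
    have hta : t * x = a := by rw [ht]; field_simp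
    have htt : tau ≤ t := by
      rw [ht, le_div_iff₀ hxpos]; exact hcard
    have ht1 : t < 1 := by
      rw [ht, div_lt_one hxpos]; linarith
    have hsb : b / x = 1 - t := by
      rw [ht]; field_simp; linarith
    -- power estimates
    have p1 : t ^ (-lam) ≤ 1 + 2 * (lam * Real.log (1 / tau)) := by
      have e1 : t ^ (-lam) = Real.exp (lam * Real.log (1 / t)) := by
        rw [Real.rpow_def_of_pos htpos, one_div, Real.log_inv]
        ring_nf
      have e2 : Real.log (1 / t) ≤ Real.log (1 / tau) := by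
        apply Real.log_le_log (by positivity)
        exact one_div_le_one_div_of_le htau htt
      have e3 : lam * Real.log (1 / t) ≤ lam * Real.log (1 / tau) :=
        mul_le_mul_of_nonneg_left e2 hl0
      have e4 : 0 ≤ lam * Real.log (1 / tau) := mul_nonneg hl0 hlogtau
      rw [e1]
      calc Real.exp (lam * Real.log (1 / t)) ≤ Real.exp (lam * Real.log (1 / tau)) :=
            Real.exp_le_exp.2 e3
        _ ≤ 1 + 2 * (lam * Real.log (1 / tau)) := by
            set y := lam * Real.log (1 / tau)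
            have h3 := Real.abs_exp_sub_one_sub_id_le (x := y) (by rw [abs_of_nonneg e4]; exact hlt)
            have h4 := (abs_le.1 h3).2
            nlinarith
    have p2 : (b / x) ^ (-lam) * (b / x) ≤ 1 - (1 - lam) * t := by
      rw [hsb]
      have h1t : 0 < 1 - t := by linarith
      have e1 : (1 - t) ^ (-lam) * (1 - t) = (1 - t) ^ (1 - lam) := by
        have := Real.rpow_add h1t (-lam) 1
        rw [Real.rpow_one] at this
        rw [← this]
        congr 1
        ring
      rw [e1]
      have := rpow_one_add_le_one_add_mul_self (s := -t) (by linarith)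
        (p := 1 - lam) (by linarith) (by linarith)
      calc (1 - t) ^ (1 - lam) = (1 + -t) ^ (1 - lam) := by ring_nf
        _ ≤ 1 + (1 - lam) * -t := this
        _ = _ := by ring
    -- combine
    have q1 : a * SS c q A F ≤ x * (t * (1 + 2 * (lam * Real.log (1 / tau))) * S) := by
      calc a * SS c q A F ≤ a * (t ^ (-lam) * S) := mul_le_mul_of_nonneg_left h1 hapos.le
        _ ≤ a * ((1 + 2 * (lam * Real.log (1 / tau))) * S) := by
            apply mul_le_mul_of_nonneg_left _ hapos.le
            exact mul_le_mul_of_nonneg_right p1 hSS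
        _ = _ := by rw [← hta]; ring
    have q2 : b * SS c q (X \ A) F ≤ x * ((1 - (1 - lam) * t) * S) := by
      have hbx : b = x * (b / x) := by field_simp
      calc b * SS c q (X \ A) F ≤ b * ((b / x) ^ (-lam) * S) :=
            mul_le_mul_of_nonneg_left h2 hbpos.le
        _ = x * (((b / x) ^ (-lam) * (b / x)) * S) := by
            conv_lhs => rw [hbx]
            have : x * (b / x) / x = b / x := by field_simp
            rw [this]
            ring
        _ ≤ x * ((1 - (1 - lam) * t) * S) := by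
            apply mul_le_mul_of_nonneg_left _ hxpos.le
            exact mul_le_mul_of_nonneg_right p2 hSS
    set D := ∑ v, F v * (max (gg c q X v - gg c q A v) 0) ^ 2
    have q3 : x * S + a * D ≤ x * (t * (1 + 2 * (lam * Real.log (1 / tau))) * S) +
        x * ((1 - (1 - lam) * t) * S) := by linarith
    have q4 : a * D ≤ a * (lam * (1 + 2 * Real.log (1 / tau)) * S) := by
      have : a * (lam * (1 + 2 * Real.log (1 / tau)) * S) =
          x * (t * (1 + 2 * (lam * Real.log (1 / tau))) * S) +
            x * ((1 - (1 - lam) * t) * S) - x * S := by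
        rw [← hta]; ring
      linarith
    exact le_of_mul_le_mul_left q4 hapos

/-- Stability (ii). -/
lemma stab_two {c : V → V → ℝ} {q lam : ℝ} (hl0 : 0 ≤ lam) (hl1 : lam ≤ 1 / 4)
    {X A : Finset V} (hA : A ⊆ X) (hX : X.Nonempty)
    (hAne : A.Nonempty) {F : V → ℝ} (hF : ∀ v, 0 ≤ F v)
    (hmax : ∀ B : Finset V, B ⊆ X → B.Nonempty → Psi c q lam B F ≤ Psi c q lam X F)
    {s0 : ℝ} (hs0 : 0 ≤ s0) (hs1 : s0 ≤ 1 / 2) (hcard : ((X \ A).card : ℝ) ≤ s0 * X.card) :
    (1 - 10 * lam * Real.sqrt s0) * Psi c q lam X F ≤ Psi c q lam A F := by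
  have hxpos : (0 : ℝ) < X.card := by exact_mod_cast hX.card_pos
  have hapos : (0 : ℝ) < A.card := by exact_mod_cast hAne.card_pos
  have hSS : 0 ≤ SS c q X F := SS_nonneg hF
  have hPsi : 0 ≤ Psi c q lam X F := Psi_nonneg hF
  rcases (X \ A).eq_empty_or_nonempty with h0 | hB
  · have hEq : A = X := Subset.antisymm hA (sdiff_eq_empty_iff_subset.1 h0)
    subst hEq
    have : 0 ≤ 10 * lam * Real.sqrt s0 := by positivity
    nlinarith
  · have hbpos : (0 : ℝ) < (X \ A).card := by exact_mod_cast hB.card_pos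
    have hsum : ((X \ A).card : ℝ) + A.card = X.card := by
      exact_mod_cast card_sdiff_add_card_eq_card hA
    have hg := convex_gain (c := c) (q := q) hA hX hF
    have h2 := SS_le_of_max hX hB (hmax (X \ A) sdiff_subset hB)
    have hD : 0 ≤ (A.card : ℝ) * ∑ v, F v * (max (gg c q X v - gg c q A v) 0) ^ 2 :=
      mul_nonneg hapos.le (sum_nonneg fun v _ => mul_nonneg (hF v) (sq_nonneg _))
    unfold Psi
    set S := SS c q X F
    set x : ℝ := (X.card : ℝ)
    set a : ℝ := (A.card : ℝ)
    set b : ℝ := ((X \ A).card : ℝ)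
    set s : ℝ := b / x with hs
    have hspos : 0 < s := by positivity
    have hss0 : s ≤ s0 := by rw [hs, div_le_iff₀ hxpos]; exact hcard
    have hs12 : s ≤ 1 / 2 := hss0.trans hs1
    have hsx : b = x * s := by rw [hs]; field_simp
    have hax : a = x * (1 - s) := by rw [mul_sub, ← hsx]; linarith
    have h1s : 0 < 1 - s := by linarith
    -- s^(1-lam) - s ≤ 4 lam sqrt s
    have p1 : s ^ (-lam) * s ≤ s + 4 * lam * Real.sqrt s := by
      have hlog : 0 ≤ Real.log (1 / s) := by
        apply Real.log_nonneg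
        rw [le_div_iff₀ hspos]; linarith
      have e1 : s ^ (-lam) = Real.exp (lam * Real.log (1 / s)) := by
        rw [Real.rpow_def_of_pos hspos, one_div, Real.log_inv]
        ring_nf
      -- e^y - 1 ≤ y e^y
      have e2 : Real.exp (lam * Real.log (1 / s)) - 1 ≤
          lam * Real.log (1 / s) * Real.exp (lam * Real.log (1 / s)) := by
        set y := lam * Real.log (1 / s)
        have h3 := Real.add_one_le_exp (-y)
        have h4 : Real.exp (-y) * Real.exp y = 1 := by rw [← Real.exp_add]; simp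
        have h5 : (-y + 1) * Real.exp y ≤ Real.exp (-y) * Real.exp y :=
          mul_le_mul_of_nonneg_right h3 (Real.exp_pos _).le
        rw [h4] at h5
        linarith
      have e3 : s ^ (-lam) ≤ s ^ (-(1 / 4) : ℝ) := by
        apply Real.rpow_le_rpow_of_exponent_ge hspos (by linarith)
        linarith
      have e4 : Real.log (1 / s) ≤ 4 * s ^ (-(1 / 4) : ℝ) := by
        have h3 : Real.log (1 / s) = 4 * Real.log (s ^ (-(1 / 4) : ℝ)) := by
          rw [Real.log_rpow hspos, one_div, Real.log_inv]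
          ring
        rw [h3]
        have h4 : (0 : ℝ) < s ^ (-(1 / 4) : ℝ) := Real.rpow_pos_of_pos hspos _
        have := Real.log_le_sub_one_of_pos h4
        linarith
      have e5 : (0 : ℝ) < s ^ (-(1 / 4) : ℝ) := Real.rpow_pos_of_pos hspos _
      have e6 : s ^ (-(1 / 4) : ℝ) * s ^ (-(1 / 4) : ℝ) * s = Real.sqrt s := by
        rw [Real.sqrt_eq_rpow, ← Real.rpow_add hspos]
        conv_lhs => rw [← Real.rpow_one s]
        rw [Real.rpow_one, ← Real.rpow_add_one hspos.ne']
        norm_num
      have e7 : s ^ (-lam) - 1 ≤ lam * (4 * s ^ (-(1 / 4) : ℝ)) * s ^ (-(1 / 4) : ℝ) := by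
        calc s ^ (-lam) - 1 ≤ lam * Real.log (1 / s) * s ^ (-lam) := by
              rw [e1]; exact e2
          _ ≤ lam * (4 * s ^ (-(1 / 4) : ℝ)) * s ^ (-(1 / 4) : ℝ) := by
              apply mul_le_mul _ e3 (Real.rpow_nonneg hspos.le _)
                (mul_nonneg hl0 (mul_nonneg (by norm_num) e5.le))
              exact mul_le_mul_of_nonneg_left e4 hl0
      have e8 := mul_le_mul_of_nonneg_right e7 hspos.le
      nlinarith
    have hsqrt : s ≤ Real.sqrt s := by
      apply Real.le_sqrt_of_sq_le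
      nlinarith
    have hsqrt0 : Real.sqrt s ≤ Real.sqrt s0 := Real.sqrt_le_sqrt hss0
    have hsq : 0 ≤ Real.sqrt s := Real.sqrt_nonneg _
    have q2 : b * SS c q (X \ A) F ≤ x * ((s + 4 * lam * Real.sqrt s) * S) := by
      calc b * SS c q (X \ A) F ≤ b * (s ^ (-lam) * S) :=
            mul_le_mul_of_nonneg_left h2 hbpos.le
        _ = x * ((s ^ (-lam) * s) * S) := by rw [hsx]; ring
        _ ≤ x * ((s + 4 * lam * Real.sqrt s) * S) := by
            apply mul_le_mul_of_nonneg_left _ hxpos.le
            exact mul_le_mul_of_nonneg_right p1 hSS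
    have q3 : x * S ≤ a * SS c q A F + x * ((s + 4 * lam * Real.sqrt s) * S) := by linarith
    -- SS A ≥ (1 - 8 lam sqrt s) S
    have q4 : (1 - 8 * lam * Real.sqrt s) * S ≤ SS c q A F := by
      have h3 : a * ((1 - 8 * lam * Real.sqrt s) * S) ≤ a * SS c q A F := by
        have h4 : a * ((1 - 8 * lam * Real.sqrt s) * S) ≤
            x * S - x * ((s + 4 * lam * Real.sqrt s) * S) := by
          rw [hax]
          have h5 : (1 - s) * (1 - 8 * lam * Real.sqrt s) ≤ 1 - (s + 4 * lam * Real.sqrt s) := by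
            have h6 : 0 ≤ lam * Real.sqrt s := mul_nonneg hl0 hsq
            nlinarith
          have h7 := mul_le_mul_of_nonneg_right h5 hSS
          have h8 := mul_le_mul_of_nonneg_left h7 hxpos.le
          nlinarith
        linarith
      exact le_of_mul_le_mul_left h3 hapos
    -- a^lam ≥ (1 - 2 lam sqrt s) x^lam
    have q5 : (1 - 2 * lam * Real.sqrt s) * x ^ lam ≤ a ^ lam := by
      rw [hax, Real.mul_rpow hxpos.le h1s.le]
      have h3 : 1 - 2 * lam * Real.sqrt s ≤ (1 - s) ^ lam := by
        have h4 : (1 - s) ^ lam = Real.exp (lam * Real.log (1 - s)) := by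
          rw [Real.rpow_def_of_pos h1s]; ring_nf
        have h5 : -(2 * s) ≤ Real.log (1 - s) := by
          have h6 := Real.one_sub_inv_le_log_of_pos h1s
          have h7 : -(2 * s) ≤ 1 - (1 - s)⁻¹ := by
            have h8 : (1 - s)⁻¹ ≤ 1 + 2 * s := by
              rw [inv_le_iff_one_le_mul₀ h1s]
              nlinarith
            linarith
          linarith
        have h6 := Real.add_one_le_exp (lam * Real.log (1 - s))
        have h7 : lam * (-(2 * s)) ≤ lam * Real.log (1 - s) :=
          mul_le_mul_of_nonneg_left h5 hl0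
        have h8 : lam * s ≤ lam * Real.sqrt s := mul_le_mul_of_nonneg_left hsqrt hl0
        rw [h4]
        linarith
      have h9 : (0 : ℝ) ≤ x ^ lam := Real.rpow_nonneg hxpos.le _
      nlinarith
    have hxl : (0 : ℝ) ≤ x ^ lam := Real.rpow_nonneg hxpos.le _
    have hls : 0 ≤ lam * Real.sqrt s := mul_nonneg hl0 hsq
    by_cases hneg : 1 - 8 * lam * Real.sqrt s < 0
    · have h3 : 0 ≤ a ^ lam * SS c q A F :=
        mul_nonneg (Real.rpow_nonneg hapos.le _) (SS_nonneg hF)
      have h4 : 1 - 10 * lam * Real.sqrt s0 ≤ 0 := by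
        have : lam * Real.sqrt s ≤ lam * Real.sqrt s0 := mul_le_mul_of_nonneg_left hsqrt0 hl0
        linarith
      have h5 : (1 - 10 * lam * Real.sqrt s0) * (x ^ lam * S) ≤ 0 :=
        mul_nonpos_of_nonpos_of_nonneg h4 (mul_nonneg hxl hSS)
      linarith
    · push Not at hneg
      have h3 : ((1 - 2 * lam * Real.sqrt s) * x ^ lam) * ((1 - 8 * lam * Real.sqrt s) * S) ≤
          a ^ lam * SS c q A F := by
        apply mul_le_mul q5 q4 (mul_nonneg hneg hSS) (Real.rpow_nonneg hapos.le _)
      have h4 : (1 - 10 * lam * Real.sqrt s0) * (x ^ lam * S) ≤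
          ((1 - 2 * lam * Real.sqrt s) * x ^ lam) * ((1 - 8 * lam * Real.sqrt s) * S) := by
        have h5 : ((1 - 2 * lam * Real.sqrt s) * x ^ lam) * ((1 - 8 * lam * Real.sqrt s) * S) =
            ((1 - 2 * (lam * Real.sqrt s)) * (1 - 8 * (lam * Real.sqrt s))) * (x ^ lam * S) := by
          ring
        rw [h5]
        apply mul_le_mul_of_nonneg_right _ (mul_nonneg hxl hSS)
        have : lam * Real.sqrt s ≤ lam * Real.sqrt s0 := mul_le_mul_of_nonneg_left hsqrt0 hl0
        nlinarith
      exact h4.trans h3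

end Pool.Agent.H68.Pure
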