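import Mathlib
import Pool.Agent.H68.Pure.Stable

set_option autoImplicit false
set_option linter.unusedSectionVars false
set_option linter.unusedVariables false

/-!
Pure-direction inequality for Ramsey numbers, part 2: the red step and the main induction.
-/

namespace Pool.Agent.H68.Pure

open Finset
open Pool.Agent.H68.Book

variable {V : Type*} [Fintype V] [DecidableEq V]

/-- The red step. -/
lemma red_step (G : SimpleGraph V) [DecidableRel G.Adj] {q lam tau : ℝ} (hq : 0 ≤ q)
    (hl0 : 0 < lam) (hl1 : lam ≤ 1) (htau : 0 < tau) (htau1 : tau ≤ 1)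
    (hlt : lam * Real.log (1 / tau) ≤ 1)
    {X : Finset V} (hX : X.Nonempty) {F : V → ℝ} (hF : ∀ v, 0 ≤ F v)
    (hmax : ∀ B : Finset V, B ⊆ X → B.Nonempty →
      Psi (col G true) q lam B F ≤ Psi (col G true) q lam X F)
    (hdeg : ∀ u ∈ X, tau * X.card ≤ (X.filter (fun w => G.Adj u w)).card) :
    ∃ u ∈ X, tau ^ lam * (q - 2 * Real.sqrt (lam * (1 + 2 * Real.log (1 / tau)))) *
      Psi (col G true) q lam X F ≤
      Psi (col G true) q lam (X.filter (fun w => G.Adj u w)) (fun v => F v * col G true v u) := by
  have hxpos : (0 : ℝ) < X.card := by exact_mod_cast hX.card_pos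
  have hlogtau : 0 ≤ Real.log (1 / tau) := by
    apply Real.log_nonneg
    rw [le_div_iff₀ htau]
    linarith
  set E : ℝ := lam * (1 + 2 * Real.log (1 / tau)) with hE
  have hEpos : 0 < E := by positivity
  set mu : ℝ := Real.sqrt E with hmu
  have hmupos : 0 < mu := Real.sqrt_pos.2 hEpos
  have hmusq : mu * mu = E := Real.mul_self_sqrt hEpos.le
  set c : V → V → ℝ := col G true with hc
  have hc0 : ∀ v w, 0 ≤ c v w := col_nonneg G true
  have hc1 : ∀ v w, c v w ≤ 1 := col_le_one G true
  have hSS : 0 ≤ SS c q X F := SS_nonneg hF
  -- choice of the vertex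
  obtain ⟨u, hu, hu2⟩ : ∃ u ∈ X, q * SS c q X F ≤ ∑ v, (F v * c v u) * gg c q X v ^ 2 := by
    by_contra hcon
    push Not at hcon
    have h1 : ∑ u ∈ X, ∑ v, (F v * c v u) * gg c q X v ^ 2 < ∑ _u ∈ X, q * SS c q X F :=
      sum_lt_sum_of_nonempty hX hcon
    rw [sum_const, nsmul_eq_mul, sum_comm] at h1
    have h2 : (X.card : ℝ) * (q * SS c q X F) ≤
        ∑ v, ∑ u ∈ X, (F v * c v u) * gg c q X v ^ 2 := by
      unfold SS
      rw [mul_sum, mul_sum]
      refine sum_le_sum fun v _ => ?_
      have h3 : ∑ u ∈ X, (F v * c v u) * gg c q X v ^ 2 =
          (X.card * dens c X v) * (F v * gg c q X v ^ 2) := by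
        rw [Book.card_mul_dens, sum_mul]
        exact sum_congr rfl fun u _ => by ring
      rw [h3]
      have h4 : q * gg c q X v ^ 2 ≤ dens c X v * gg c q X v ^ 2 := by
        unfold gg
        rcases le_total (dens c X v - q) 0 with h | h
        · rw [max_eq_right h]; simp
        · rw [max_eq_left h]
          apply mul_le_mul_of_nonneg_right _ (sq_nonneg _)
          linarith
      have h5 : 0 ≤ (X.card : ℝ) * F v := mul_nonneg hxpos.le (hF v)
      nlinarith [mul_le_mul_of_nonneg_left h4 h5]
    linarith
  refine ⟨u, hu, ?_⟩
  set A : Finset V := X.filter (fun w => G.Adj u w) with hA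
  have hAX : A ⊆ X := filter_subset _ _
  have hAcard := hdeg u hu
  have hApos : (0 : ℝ) < A.card := lt_of_lt_of_le (by positivity) hAcard
  have hAne : A.Nonempty := by
    rw [← card_pos]; exact_mod_cast hApos
  have hst := stab_one hl0.le hl1 hAX hX hAne hF hmax htau hAcard hlt
  -- lower bound for the new sum
  have hlow : (q - 2 * mu) * SS c q X F ≤ SS c q A (fun v => F v * c v u) := by
    have h1 : ∀ v, (F v * c v u) * gg c q X v ^ 2 - (mu * (F v * gg c q X v ^ 2) +
        (1 / mu) * (F v * (max (gg c q X v - gg c q A v) 0) ^ 2)) ≤
        (F v * c v u) * gg c q A v ^ 2 := by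
      intro v
      set g := gg c q X v
      set g' := gg c q A v
      set h := max (g - g') 0 with hh
      have hg : 0 ≤ g := gg_nonneg c q X v
      have hg' : 0 ≤ g' := gg_nonneg c q A v
      have hh0 : 0 ≤ h := le_max_right _ _
      have h2 : g ^ 2 - 2 * g * h ≤ g' ^ 2 := by
        rcases le_total (g - g') 0 with h3 | h3
        · rw [hh, max_eq_right h3]
          nlinarith
        · rw [hh, max_eq_left h3]
          nlinarith [sq_nonneg (g - g')]
      have h3 : 2 * g * h ≤ mu * g ^ 2 + 1 / mu * h ^ 2 := by
        have h4 : 0 ≤ (1 / mu) * (mu * g - h) ^ 2 := by positivity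
        have h5 : (1 / mu) * (mu * g - h) ^ 2 = mu * g ^ 2 - 2 * g * h + 1 / mu * h ^ 2 := by
          field_simp
          ring
        linarith
      have hFc : 0 ≤ F v * c v u := mul_nonneg (hF v) (hc0 v u)
      have hFc1 : F v * c v u ≤ F v := by
        have := mul_le_mul_of_nonneg_left (hc1 v u) (hF v)
        linarith
      have h6 := mul_le_mul_of_nonneg_left h2 hFc
      have h7 : (F v * c v u) * (2 * g * h) ≤ F v * (mu * g ^ 2 + 1 / mu * h ^ 2) := by
        calc (F v * c v u) * (2 * g * h) ≤ F v * (2 * g * h) := by
              apply mul_le_mul_of_nonneg_right hFc1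
              positivity
          _ ≤ _ := mul_le_mul_of_nonneg_left h3 (hF v)
      nlinarith
    have h2 : ∑ v, ((F v * c v u) * gg c q X v ^ 2 - (mu * (F v * gg c q X v ^ 2) +
        (1 / mu) * (F v * (max (gg c q X v - gg c q A v) 0) ^ 2))) ≤
        SS c q A (fun v => F v * c v u) := sum_le_sum fun v _ => h1 v
    rw [sum_sub_distrib, sum_add_distrib, ← mul_sum, ← mul_sum] at h2
    have h3 : (1 / mu) * ∑ v, F v * (max (gg c q X v - gg c q A v) 0) ^ 2 ≤
        mu * SS c q X F := by
      calc (1 / mu) * ∑ v, F v * (max (gg c q X v - gg c q A v) 0) ^ 2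
          ≤ (1 / mu) * (E * SS c q X F) := mul_le_mul_of_nonneg_left hst (by positivity)
        _ = mu * SS c q X F := by
            rw [← hmusq]
            field_simp
    have h4 : ∑ v, F v * gg c q X v ^ 2 = SS c q X F := rfl
    rw [h4] at h2
    nlinarith
  have hpow : tau ^ lam * (X.card : ℝ) ^ lam ≤ (A.card : ℝ) ^ lam := by
    rw [← Real.mul_rpow htau.le hxpos.le]
    exact Real.rpow_le_rpow (by positivity) hAcard hl0.le
  have hxl : 0 ≤ (X.card : ℝ) ^ lam := Real.rpow_nonneg hxpos.le _
  have htl : 0 ≤ tau ^ lam := Real.rpow_nonneg htau.le _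
  have hal : 0 ≤ (A.card : ℝ) ^ lam := Real.rpow_nonneg hApos.le _
  have hSA : 0 ≤ SS c q A (fun v => F v * c v u) :=
    SS_nonneg fun v => mul_nonneg (hF v) (hc0 v u)
  unfold Psi
  rcases le_or_gt 0 (q - 2 * mu) with h | h
  · calc tau ^ lam * (q - 2 * mu) * ((X.card : ℝ) ^ lam * SS c q X F)
        = (tau ^ lam * (X.card : ℝ) ^ lam) * ((q - 2 * mu) * SS c q X F) := by ring
      _ ≤ (A.card : ℝ) ^ lam * SS c q A (fun v => F v * c v u) :=
          mul_le_mul hpow hlow (mul_nonneg h hSS) hal
  · have h1 : tau ^ lam * (q - 2 * mu) * ((X.card : ℝ) ^ lam * SS c q X F) ≤ 0 := by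
      apply mul_nonpos_of_nonpos_of_nonneg
      · exact mul_nonpos_of_nonneg_of_nonpos htl h.le
      · exact mul_nonneg hxl hSS
    exact h1.trans (mul_nonneg hal hSA)

/-- There is no blue clique with `b` vertices in `X`. -/
def NoBl (G : SimpleGraph V) (X : Finset V) (b : ℕ) : Prop :=
  ∀ l : List V, l.length = b → (∀ w ∈ l, w ∈ X) → ¬ Clq G false l

/-- Every red clique with `k` vertices in `X` has at most `M` common red neighbours, counted with
the weight `F`. -/
def BdP (G : SimpleGraph V) (X : Finset V) (F : V → ℝ) (k : ℕ) (M : ℝ) : Prop :=
  ∀ l : List V, l.length = k → (∀ w ∈ l, w ∈ X) → Clq G true l →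
    ∑ v, F v * cprod (col G true) l v ≤ M

lemma NoBl.mono {G : SimpleGraph V} {X Y : Finset V} {b : ℕ} (h : NoBl G Y b) (hXY : X ⊆ Y) :
    NoBl G X b := fun l hl hw => h l hl fun w hwl => hXY (hw w hwl)

lemma BdP.mono {G : SimpleGraph V} {X Y : Finset V} {F : V → ℝ} {k : ℕ} {M : ℝ}
    (h : BdP G Y F k M) (hXY : X ⊆ Y) : BdP G X F k M :=
  fun l hl hw => h l hl fun w hwl => hXY (hw w hwl)

/-- **Main induction.** -/
theorem claim (G : SimpleGraph V) {q lam tau rho beta M D x0 : ℝ} (hq : 0 ≤ q)
    (hl0 : 0 < lam) (hl1 : lam ≤ 1 / 4) (htau : 0 < tau) (htau1 : tau ≤ 1 / 4)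
    (hlt : lam * Real.log (1 / tau) ≤ 1)
    (hrho : rho ≤ tau ^ lam * (q - 2 * Real.sqrt (lam * (1 + 2 * Real.log (1 / tau)))))
    (hrho0 : 0 < rho) (hrho1 : rho ≤ 1)
    (hbeta : beta ≤ 1 - 10 * lam * Real.sqrt (2 * tau)) (hbeta0 : 0 < beta) (hbeta1 : beta ≤ 1)
    (hD1 : x0 ^ lam * M ≤ D)
    (hD2 : tau ^ (-lam) * Fintype.card V ≤ D) :
    ∀ (n k b : ℕ), k + b = n → ∀ (X : Finset V) (F : V → ℝ), (∀ v, 0 ≤ F v) →
      (∀ v, F v ≤ 1) → (X.card : ℝ) ≤ x0 → NoBl G X (b + 1) → BdP G X F k M →
      Psi (col G true) q lam X F * (rho ^ k * beta ^ b) ≤ D := by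
  classical
  intro n
  induction n with
  | zero =>
      intro k b hkb X F hF0 hF1 hx0 hbl hbd
      have hk : k = 0 := by omega
      have hb : b = 0 := by omega
      subst hk hb
      rcases X.eq_empty_or_nonempty with rfl | ⟨x, hx⟩
      · have h1 : SS (col G true) q (∅ : Finset V) F = 0 := by
          unfold SS
          refine sum_eq_zero fun v _ => ?_
          have : gg (col G true) q (∅ : Finset V) v = 0 := by
            unfold gg Book.dens
            simp [hq]
          rw [this]; simp
        unfold Psi
        rw [h1]
        have hN : (0 : ℝ) ≤ tau ^ (-lam) * Fintype.card V := by positivity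
        simp
        linarith
      · exfalso
        exact hbl [x] rfl (by simp [hx]) (by simp [Clq])
  | succ n ih =>
      intro k b hkb X F hF0 hF1 hx0 hbl hbd
      have hN0 : (0 : ℝ) ≤ Fintype.card V := Nat.cast_nonneg _
      have hD0 : 0 ≤ D := le_trans (by positivity) hD2
      have hrk : 0 ≤ rho ^ k := pow_nonneg hrho0.le _
      have hbb : 0 ≤ beta ^ b := pow_nonneg hbeta0.le _
      have hprod1 : rho ^ k * beta ^ b ≤ 1 :=
        mul_le_one₀ (pow_le_one₀ hrho0.le hrho1) hbb (pow_le_one₀ hbeta0.le hbeta1)
      have hprod0 : 0 ≤ rho ^ k * beta ^ b := mul_nonneg hrk hbb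
      rcases X.eq_empty_or_nonempty with rfl | hXne
      · have h1 : SS (col G true) q (∅ : Finset V) F = 0 := by
          unfold SS
          refine sum_eq_zero fun v _ => ?_
          have : gg (col G true) q (∅ : Finset V) v = 0 := by
            unfold gg Book.dens
            simp [hq]
          rw [this]; simp
        unfold Psi
        rw [h1, mul_zero, zero_mul]
        exact hD0
      · -- the maximal subset
        obtain ⟨X1, hX1mem, hX1max⟩ := (X.powerset.filter (fun Y => Y.Nonempty)).exists_max_image
          (fun Y => Psi (col G true) q lam Y F) ⟨X, by simp [hXne]⟩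
        rw [mem_filter, mem_powerset] at hX1mem
        obtain ⟨hX1X, hX1ne⟩ := hX1mem
        have hmax : ∀ B : Finset V, B ⊆ X1 → B.Nonempty →
            Psi (col G true) q lam B F ≤ Psi (col G true) q lam X1 F := by
          intro B hB hBne
          apply hX1max
          rw [mem_filter, mem_powerset]
          exact ⟨hB.trans hX1X, hBne⟩
        have hle : Psi (col G true) q lam X F ≤ Psi (col G true) q lam X1 F := by
          apply hX1max
          rw [mem_filter, mem_powerset]
          exact ⟨Subset.rfl, hXne⟩
        have hbl1 := hbl.mono hX1X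
        have hbd1 := hbd.mono hX1X
        refine le_trans (mul_le_mul_of_nonneg_right hle hprod0) ?_
        have hPsi0 : 0 ≤ Psi (col G true) q lam X1 F := Psi_nonneg hF0
        have hSSF : SS (col G true) q X1 F ≤ ∑ v, F v := SS_le_sum (col_le_one G true) hq hF0
        have hFN : ∑ v, F v ≤ Fintype.card V := by
          calc ∑ v, F v ≤ ∑ _v : V, (1 : ℝ) := sum_le_sum fun v _ => hF1 v
            _ = Fintype.card V := by simp
        have hF00 : 0 ≤ ∑ v, F v := sum_nonneg fun v _ => hF0 v
        have hx1pos : (0 : ℝ) < X1.card := by exact_mod_cast hX1ne.card_pos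
        have hX1x0 : (X1.card : ℝ) ≤ x0 := by
          refine le_trans ?_ hx0
          exact_mod_cast card_le_card hX1X
        by_cases hsmall : (X1.card : ℝ) ≤ 1 / tau
        · have h1 : (X1.card : ℝ) ^ lam ≤ tau ^ (-lam) := by
            calc (X1.card : ℝ) ^ lam ≤ (1 / tau) ^ lam :=
                  Real.rpow_le_rpow hx1pos.le hsmall hl0.le
              _ = tau ^ (-lam) := by
                  rw [Real.rpow_neg htau.le, one_div, Real.inv_rpow htau.le]
          have h2 : Psi (col G true) q lam X1 F ≤ D := by
            calc Psi (col G true) q lam X1 F ≤ tau ^ (-lam) * Fintype.card V := by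
                  unfold Psi
                  exact mul_le_mul h1 (hSSF.trans hFN) (SS_nonneg hF0)
                    (Real.rpow_nonneg htau.le _)
              _ ≤ D := hD2
          calc _ ≤ Psi (col G true) q lam X1 F * 1 :=
                mul_le_mul_of_nonneg_left hprod1 hPsi0
            _ ≤ D := by rw [mul_one]; exact h2
        · push Not at hsmall
          have htx : 1 < tau * X1.card := by
            rw [div_lt_iff₀ htau] at hsmall
            linarith
          rcases Nat.eq_zero_or_pos k with hk0 | hkpos
          · subst hk0
            have hM : ∑ v, F v ≤ M := by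
              have := hbd [] rfl (by simp) (by simp [Clq])
              simpa [cprod] using this
            have h2 : Psi (col G true) q lam X1 F ≤ D := by
              calc Psi (col G true) q lam X1 F ≤ x0 ^ lam * M := by
                    unfold Psi
                    apply mul_le_mul _ (hSSF.trans hM) (SS_nonneg hF0)
                      (Real.rpow_nonneg (hx1pos.le.trans hX1x0) _)
                    exact Real.rpow_le_rpow hx1pos.le hX1x0 hl0.le
                _ ≤ D := hD1
            calc _ ≤ Psi (col G true) q lam X1 F * 1 :=
                  mul_le_mul_of_nonneg_left hprod1 hPsi0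
              _ ≤ D := by rw [mul_one]; exact h2
          · by_cases hblue : ∃ u ∈ X1,
                ((X1.filter (fun w => G.Adj u w)).card : ℝ) < tau * X1.card
            · -- blue step
              obtain ⟨u, hu, hucard⟩ := hblue
              rcases Nat.eq_zero_or_pos b with hb0 | hbpos
              · exfalso
                subst hb0
                exact hbl1 [u] rfl (by simp [hu]) (by simp [Clq])
              obtain ⟨b', rfl⟩ : ∃ b', b = b' + 1 := ⟨b - 1, by omega⟩
              set A : Finset V := X1.filter (fun w => u ≠ w ∧ ¬ G.Adj u w) with hA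
              have hAX : A ⊆ X1 := filter_subset _ _
              have hcompl : X1 \ A ⊆ insert u (X1.filter (fun w => G.Adj u w)) := by
                intro w hw
                rw [mem_sdiff, hA, mem_filter] at hw
                push Not at hw
                obtain ⟨hw1, hw2⟩ := hw
                rw [mem_insert, mem_filter]
                by_cases huw : u = w
                · exact Or.inl huw.symm
                · exact Or.inr ⟨hw1, hw2 hw1 huw⟩
              have hcc : ((X1 \ A).card : ℝ) ≤ 2 * tau * X1.card := by
                have h1 := (card_le_card hcompl).trans (card_insert_le _ _)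
                have h2 : ((X1 \ A).card : ℝ) ≤
                    ((X1.filter (fun w => G.Adj u w)).card : ℝ) + 1 := by exact_mod_cast h1
                linarith
              have hsum : ((X1 \ A).card : ℝ) + A.card = X1.card := by
                exact_mod_cast card_sdiff_add_card_eq_card hAX
              have hApos : (0 : ℝ) < A.card := by nlinarith
              have hAne : A.Nonempty := by
                rw [← card_pos]; exact_mod_cast hApos
              have hst := stab_two (c := col G true) (q := q) hl0.le hl1 hAX hX1ne hAne hF0
                hmax (s0 := 2 * tau) (by positivity) (by linarith) hcc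
              have hblA : NoBl G A (b' + 1) := by
                intro l hl hw hcl
                apply hbl1 (u :: l) (by simp [hl])
                · intro w hwl
                  rcases List.mem_cons.1 hwl with rfl | h
                  · exact hu
                  · exact hAX (hw w h)
                · unfold Clq at hcl ⊢
                  rw [List.pairwise_cons]
                  refine ⟨fun w hwl => ?_, hcl⟩
                  have := hw w hwl
                  rw [hA, mem_filter] at this
                  refine ⟨this.2.1, ?_⟩
                  simp [this.2.2]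
              have hAx0 : (A.card : ℝ) ≤ x0 := by
                refine le_trans ?_ hX1x0
                exact_mod_cast card_le_card hAX
              have hih := ih k b' (by omega) A F hF0 hF1 hAx0 hblA (hbd1.mono hAX)
              have h3 : beta * Psi (col G true) q lam X1 F ≤ Psi (col G true) q lam A F := by
                refine le_trans ?_ hst
                exact mul_le_mul_of_nonneg_right hbeta hPsi0
              have hbb' : 0 ≤ beta ^ b' := pow_nonneg hbeta0.le _
              calc Psi (col G true) q lam X1 F * (rho ^ k * beta ^ (b' + 1))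
                  = (beta * Psi (col G true) q lam X1 F) * (rho ^ k * beta ^ b') := by
                    rw [pow_succ]; ring
                _ ≤ Psi (col G true) q lam A F * (rho ^ k * beta ^ b') :=
                    mul_le_mul_of_nonneg_right h3 (mul_nonneg hrk hbb')
                _ ≤ D := hih
            · -- red step
              push Not at hblue
              obtain ⟨k', rfl⟩ : ∃ k', k = k' + 1 := ⟨k - 1, by omega⟩
              obtain ⟨u, hu, hstep⟩ := red_step G hq hl0 (by linarith) htau (by linarith) hlt
                hX1ne hF0 hmax hblue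
              set A : Finset V := X1.filter (fun w => G.Adj u w) with hA
              have hAX : A ⊆ X1 := filter_subset _ _
              have hAx0 : (A.card : ℝ) ≤ x0 := by
                refine le_trans ?_ hX1x0
                exact_mod_cast card_le_card hAX
              have hbdA : BdP G A (fun v => F v * col G true v u) k' M := by
                intro l hl hw hcl
                have h1 := hbd1 (u :: l) (by simp [hl])
                  (by
                    intro w hwl
                    rcases List.mem_cons.1 hwl with rfl | h
                    · exact hu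
                    · exact hAX (hw w h))
                  (by
                    unfold Clq at hcl ⊢
                    rw [List.pairwise_cons]
                    refine ⟨fun w hwl => ?_, hcl⟩
                    have := hw w hwl
                    rw [hA, mem_filter] at this
                    exact ⟨this.2.ne, by simp [this.2]⟩)
                refine le_trans (le_of_eq ?_) h1
                refine sum_congr rfl fun v _ => ?_
                simp only [cprod, List.map_cons, List.prod_cons]
                ring
              have hih := ih k' b (by omega) A (fun v => F v * col G true v u)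
                (fun v => mul_nonneg (hF0 v) (col_nonneg G true v u))
                (fun v => mul_le_one₀ (hF1 v) (col_nonneg G true v u) (col_le_one G true v u))
                hAx0 (hbl1.mono hAX) hbdA
              have h3 : rho * Psi (col G true) q lam X1 F ≤
                  Psi (col G true) q lam A (fun v => F v * col G true v u) := by
                refine le_trans ?_ hstep
                exact mul_le_mul_of_nonneg_right hrho hPsi0
              have hrk' : 0 ≤ rho ^ k' := pow_nonneg hrho0.le _
              calc Psi (col G true) q lam X1 F * (rho ^ (k' + 1) * beta ^ b)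
                  = (rho * Psi (col G true) q lam X1 F) * (rho ^ k' * beta ^ b) := by
                    rw [pow_succ]; ring
                _ ≤ Psi (col G true) q lam A (fun v => F v * col G true v u) *
                    (rho ^ k' * beta ^ b) :=
                    mul_le_mul_of_nonneg_right h3 (mul_nonneg hrk' hbb)
                _ ≤ D := hih

end Pool.Agent.H68.Pure
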