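import Mathlib
import Pool.Agent.H68.Pure.Claim

set_option autoImplicit false
set_option linter.unusedSectionVars false
set_option linter.unusedVariables false

/-!
Pure-direction inequality for Ramsey numbers, part 3: the choice of the parameters.
-/

namespace Pool.Agent.H68.Pure

open Finset
open Pool.Agent.H68.Book

theorem largeK {ε : ℝ} (hε : 0 < ε) (hε1 : ε ≤ 1 / 2) :
    ∃ κ : ℝ, 0 < κ ∧ ∃ k0 : ℕ, 1 ≤ k0 ∧ ∀ (V : Type) [Fintype V] [DecidableEq V]
      (G : SimpleGraph V) (b k : ℕ) (p : ℝ) (X : Finset V), ε ≤ p → p ≤ 1 →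
      0 < Real.log (Fintype.card V) → k0 ≤ k →
      (k : ℝ) * (1 + Real.log (1 + b / Real.log (Fintype.card V))) ≤
        κ * Real.log (Fintype.card V) →
      (Fintype.card V : ℝ) ≤ (X.card : ℝ) ^ 2 → NoBl G X b →
      (∃ Z : Finset V, ε / 4 * Fintype.card V ≤ Z.card ∧
        ∀ v ∈ Z, (1 - ε / 2) * p ≤ Book.dens (col G true) X v) →
      ∃ l : List V, l.length = k ∧ (∀ w ∈ l, w ∈ X) ∧ Clq G true l ∧
        ((1 - ε) * p) ^ k * Fintype.card V ≤ ∑ v, cprod (col G true) l v := by
  -- constants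
  set L : ℝ := Real.log (2 / ε) + 1 with hL
  have hlog2e : 0 ≤ Real.log (2 / ε) := by
    apply Real.log_nonneg
    rw [le_div_iff₀ hε]; linarith
  have hL1 : 1 ≤ L := by linarith
  set Λ : ℝ := 2 * L with hΛ
  have hΛpos : 0 < Λ := by linarith
  set r0 : ℝ := 320 * Λ / ε with hr0
  have hr0pos : 0 < r0 := by positivity
  have hr01 : 1 ≤ r0 := by
    rw [hr0, le_div_iff₀ hε]; linarith
  set C : ℝ := 5 + 2 * Real.log (2 * r0 ^ 2) with hC
  have hlogr0 : 0 ≤ Real.log (2 * r0 ^ 2) := by
    apply Real.log_nonneg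
    nlinarith only [hr01]
  have hC5 : 5 ≤ C := by linarith
  set κ : ℝ := ε ^ 4 / (1024 * Λ * C) with hκ
  have hκpos : 0 < κ := by positivity
  have hε16 : (1 - ε / 16) < 1 := by linarith
  have hε16' : 0 < 1 - ε / 16 := by linarith
  obtain ⟨k1, hk1⟩ := exists_pow_lt_of_lt_one (show 0 < ε ^ 5 / 64 by positivity) hε16
  refine ⟨κ, hκpos, max 1 k1, le_max_left _ _, ?_⟩
  intro V _ _ G b k p X hp hp1 hnpos' hk hkn hX hbl hZ
  have hk1' : 1 ≤ k := le_trans (le_max_left _ _) hk
  have hk2 : k1 ≤ k := le_trans (le_max_right _ _) hk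
  have hkR : (1 : ℝ) ≤ k := by exact_mod_cast hk1'
  set N : ℝ := (Fintype.card V : ℝ) with hN
  set n : ℝ := Real.log N with hn
  have hnpos : 0 < n := hnpos'
  have hbR0 : (0 : ℝ) ≤ b := Nat.cast_nonneg _
  set u : ℝ := 1 + b / n with hu
  have hu1 : 1 ≤ u := by
    have : 0 ≤ (b : ℝ) / n := by positivity
    linarith
  have hupos : 0 < u := by linarith
  have hlogu : 0 ≤ Real.log u := Real.log_nonneg hu1
  set c1 : ℝ := 1 / u with hc1def
  have hc1 : 0 < c1 := by positivity
  have hc11 : c1 ≤ 1 := by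
    rw [hc1def, div_le_one hupos]; exact hu1
  have hb : c1 * b ≤ n := by
    rw [hc1def, div_mul_eq_mul_div, one_mul, div_le_iff₀ hupos, hu, mul_add, mul_one]
    have : n * (b / n) = b := by field_simp
    rw [this]; linarith
  set r : ℝ := ε * c1 / (320 * Λ) with hr
  have hrpos : 0 < r := by positivity
  have hr1 : r ≤ 1 / 320 := by
    rw [hr, div_le_iff₀ (by positivity)]
    have : ε * c1 ≤ 1 := by nlinarith only [hε, hε1, hc1, hc11]
    nlinarith only [this, hL1, hΛ]
  set τ : ℝ := r ^ 2 / 2 with hτ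
  have hτpos : 0 < τ := by positivity
  have hτ1 : τ ≤ 1 / 4 := by nlinarith only [hτ, hr1, hrpos]
  have hsqrtτ : Real.sqrt (2 * τ) = r := by
    have : 2 * τ = r ^ 2 := by rw [hτ]; ring
    rw [this, Real.sqrt_sq hrpos.le]
  have hlogτ : 0 ≤ Real.log (1 / τ) := by
    apply Real.log_nonneg
    rw [le_div_iff₀ hτpos]; linarith
  set T : ℝ := 1 + 2 * Real.log (1 / τ) with hT
  have hT1 : 1 ≤ T := by linarith
  have hTC : T ≤ C * (1 + Real.log u) := by
    have h1 : 1 / τ = (2 * r0 ^ 2) * u ^ 2 := by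
      rw [hτ, hr, hr0, hc1def]
      field_simp
    rw [hT, h1, Real.log_mul (by positivity) (by positivity), Real.log_pow]
    push_cast
    nlinarith only [hC, hlogu, hlogr0, mul_nonneg (sub_nonneg.2 hC5) hlogu]
  have hNpos : 0 < N := by
    by_contra h2
    have h3 : N = 0 := le_antisymm (not_lt.1 h2) (Nat.cast_nonneg _)
    rw [hn, h3, Real.log_zero] at hnpos
    exact lt_irrefl _ hnpos
  have hppos : 0 < p := lt_of_lt_of_le hε hp
  set lam : ℝ := Λ * k / n with hlam
  have hlampos : 0 < lam := by positivity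
  have hlamn : lam * n = Λ * k := by rw [hlam]; field_simp
  have hlamT : lam * T ≤ ε ^ 4 / 1024 := by
    have h1 : (k : ℝ) * (1 + Real.log u) / n ≤ κ := by
      rw [div_le_iff₀ hnpos]; exact hkn
    calc lam * T ≤ lam * (C * (1 + Real.log u)) := mul_le_mul_of_nonneg_left hTC hlampos.le
      _ = (Λ * C) * ((k : ℝ) * (1 + Real.log u) / n) := by rw [hlam]; ring
      _ ≤ (Λ * C) * κ := mul_le_mul_of_nonneg_left h1 (by positivity)
      _ = ε ^ 4 / 1024 := by
          rw [hκ]; field_simp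
  have hε4 : ε ^ 4 ≤ ε := by
    calc ε ^ 4 ≤ ε ^ 1 := pow_le_pow_of_le_one hε.le (by linarith) (by norm_num)
      _ = ε := pow_one _
  have hlam1 : lam ≤ 1 / 4 := by nlinarith only [hlamT, hT1, hlampos, hε4, hε1]
  have hlamlog : lam * Real.log (1 / τ) ≤ ε / 16 := by
    have h1 : Real.log (1 / τ) ≤ T := by linarith
    have h2 : lam * Real.log (1 / τ) ≤ lam * T := mul_le_mul_of_nonneg_left h1 hlampos.le
    linarith
  have hlt : lam * Real.log (1 / τ) ≤ 1 := by linarith
  set q : ℝ := (1 - 3 * ε / 4) * p with hq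
  have hq0 : 0 ≤ q := mul_nonneg (by linarith) hppos.le
  set rho : ℝ := (1 - 7 * ε / 8) * p with hrho
  have hrho0 : 0 < rho := mul_pos (by linarith) hppos
  have hrho1 : rho ≤ 1 := mul_le_one₀ (by linarith) hppos.le hp1
  have hsqrtE : 2 * Real.sqrt (lam * T) ≤ ε / 16 * p := by
    have h1 : Real.sqrt (lam * T) ≤ ε ^ 2 / 32 := by
      rw [Real.sqrt_le_left (by positivity)]
      calc lam * T ≤ ε ^ 4 / 1024 := hlamT
        _ = (ε ^ 2 / 32) ^ 2 := by ring
    nlinarith only [h1, hp, hε]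
  have htaulam : 1 - ε / 16 ≤ τ ^ lam := by
    have h1 : τ ^ lam = Real.exp (-(lam * Real.log (1 / τ))) := by
      rw [Real.rpow_def_of_pos hτpos, one_div, Real.log_inv]
      ring_nf
    rw [h1]
    have := Real.add_one_le_exp (-(lam * Real.log (1 / τ)))
    linarith
  have hrhole : rho ≤ τ ^ lam * (q - 2 * Real.sqrt (lam * T)) := by
    have h1 : (1 - 13 * ε / 16) * p ≤ q - 2 * Real.sqrt (lam * T) := by
      rw [hq]; linarith
    have h2 : 0 ≤ (1 - 13 * ε / 16) * p := mul_nonneg (by linarith) hppos.le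
    calc rho ≤ (1 - ε / 16) * ((1 - 13 * ε / 16) * p) := by
          rw [hrho]
          have : (1 - 7 * ε / 8) ≤ (1 - ε / 16) * (1 - 13 * ε / 16) := by nlinarith only [hε, sq_nonneg ε]
          calc (1 - 7 * ε / 8) * p ≤ ((1 - ε / 16) * (1 - 13 * ε / 16)) * p :=
                mul_le_mul_of_nonneg_right this hppos.le
            _ = _ := by ring
      _ ≤ τ ^ lam * (q - 2 * Real.sqrt (lam * T)) :=
          mul_le_mul htaulam h1 h2 (Real.rpow_nonneg hτpos.le _)
  set x : ℝ := 10 * lam * Real.sqrt (2 * τ) with hx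
  have hx0 : 0 ≤ x := by positivity
  have hxle : x ≤ 1 / 2 := by
    rw [hx, hsqrtτ]
    nlinarith only [hlam1, hr1, hlampos, hrpos]
  set beta : ℝ := 1 - x with hbeta
  have hbeta0 : 0 < beta := by linarith
  have hbeta1 : beta ≤ 1 := by linarith
  have hbexp : Real.exp (-(2 * x)) ≤ beta := by
    have h1 := Real.add_one_le_exp (x / beta)
    have h2 : x / beta ≤ 2 * x := by
      rw [div_le_iff₀ hbeta0]
      nlinarith only [hbeta, hx0, hxle]
    have h3 : Real.exp (x / beta) ≤ Real.exp (2 * x) := Real.exp_le_exp.2 h2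
    have h4 : 1 / beta = x / beta + 1 := by
      rw [hbeta]
      have : (1 : ℝ) - x ≠ 0 := by linarith
      field_simp
      ring
    have h5 : 1 / beta ≤ Real.exp (2 * x) := by rw [h4]; linarith
    rw [Real.exp_neg]
    rw [one_div] at h5
    exact (inv_le_comm₀ hbeta0 (Real.exp_pos _)).1 h5
  -- b ≥ 1
  obtain ⟨b', rfl⟩ : ∃ b', b = b' + 1 := by
    rcases Nat.eq_zero_or_pos b with h | h
    · exfalso
      subst h
      exact hbl [] rfl (by simp) (by simp [Clq])
    · exact ⟨b - 1, by omega⟩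
  have hbR : c1 * ((b' : ℝ) + 1) ≤ n := by
    have : (((b' + 1 : ℕ) : ℝ)) = (b' : ℝ) + 1 := by push_cast; ring
    rwa [this] at hb
  have hbetab : (1 - ε / 16) ^ k ≤ beta ^ b' := by
    have h1 : Real.exp (-(ε / 16)) ^ k ≤ (Real.exp (-(2 * x))) ^ b' := by
      rw [← Real.exp_nat_mul, ← Real.exp_nat_mul]
      apply Real.exp_le_exp.2
      have h2 : (b' : ℝ) * (2 * x) ≤ k * (ε / 16) := by
        have h3 : (b' : ℝ) * (2 * x) * c1 ≤ k * (ε / 16) * c1 := by
          have h4 : 2 * x * n = 20 * Λ * k * r := by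
            rw [hx, hsqrtτ]
            calc 2 * (10 * lam * r) * n = 20 * (lam * n) * r := by ring
              _ = _ := by rw [hlamn]; ring
          have h5 : 20 * Λ * k * r = k * (ε / 16) * c1 := by
            rw [hr]; field_simp; norm_num
          calc (b' : ℝ) * (2 * x) * c1 = (c1 * b') * (2 * x) := by ring
            _ ≤ n * (2 * x) := by
                apply mul_le_mul_of_nonneg_right _ (by linarith)
                linarith
            _ = k * (ε / 16) * c1 := by rw [← h5, ← h4]; ring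
        exact le_of_mul_le_mul_right h3 hc1
      linarith
    calc (1 - ε / 16) ^ k ≤ Real.exp (-(ε / 16)) ^ k := by
          apply pow_le_pow_left₀ hε16'.le
          have := Real.add_one_le_exp (-(ε / 16))
          linarith
      _ ≤ (Real.exp (-(2 * x))) ^ b' := h1
      _ ≤ beta ^ b' := pow_le_pow_left₀ (Real.exp_pos _).le hbexp _
  -- contradiction hypothesis
  by_contra hcon
  push Not at hcon
  set y : ℝ := ((1 - ε) * p) ^ k with hy
  have hypos : 0 < y := pow_pos (mul_pos (by linarith) hppos) _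
  have hbd : BdP G X (fun _ => 1) k (y * N) := by
    intro l hl hw hcl
    have := hcon l hl hw hcl
    simp only [one_mul]
    exact this.le
  set D : ℝ := max ((X.card : ℝ) ^ lam * (y * N)) (τ ^ (-lam) * N) with hD
  have hclaim := claim G hq0 hlampos hlam1 hτpos hτ1 hlt hrhole hrho0 hrho1 (beta := beta)
    (by rw [hbeta]) hbeta0 hbeta1 (M := y * N) (D := D) (x0 := X.card)
    (le_max_left _ _) (le_max_right _ _) (k + b') k b' rfl X (fun _ => 1)
    (fun _ => zero_le_one) (fun _ => le_rfl) le_rfl hbl hbd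
  -- lower bound for the initial potential
  obtain ⟨Z, hZc, hZd⟩ := hZ
  have hS : ε ^ 5 / 64 * N ≤ SS (col G true) q X (fun _ => 1) := by
    have h1 : ∀ v ∈ Z, (ε ^ 2 / 4) ^ 2 ≤ 1 * gg (col G true) q X v ^ 2 := by
      intro v hv
      rw [one_mul]
      apply pow_le_pow_left₀ (by positivity)
      unfold gg
      apply le_max_of_le_left
      have h2 := hZd v hv
      rw [hq]
      nlinarith only [h2, hp, hε]
    calc ε ^ 5 / 64 * N = (ε / 4 * N) * (ε ^ 2 / 4) ^ 2 := by ring
      _ ≤ Z.card * (ε ^ 2 / 4) ^ 2 := mul_le_mul_of_nonneg_right hZc (by positivity)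
      _ = ∑ _v ∈ Z, (ε ^ 2 / 4) ^ 2 := by rw [sum_const, nsmul_eq_mul]
      _ ≤ ∑ v ∈ Z, 1 * gg (col G true) q X v ^ 2 := sum_le_sum h1
      _ ≤ SS (col G true) q X (fun _ => 1) := by
          unfold SS
          exact sum_le_sum_of_subset_of_nonneg (subset_univ _) fun v _ _ => by positivity
  have hpowk : (1 - ε / 16) ^ k ≤ ε ^ 5 / 64 :=
    (pow_le_pow_of_le_one hε16'.le hε16.le hk2).trans hk1.le
  have hSprod : y * N < SS (col G true) q X (fun _ => 1) * (rho ^ k * beta ^ b') := by
    have h1 : ((1 - ε / 16) ^ k * N) * (rho ^ k * (1 - ε / 16) ^ k) ≤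
        SS (col G true) q X (fun _ => 1) * (rho ^ k * beta ^ b') := by
      apply mul_le_mul
      · exact (mul_le_mul_of_nonneg_right hpowk hNpos.le).trans hS
      · exact mul_le_mul_of_nonneg_left hbetab (pow_nonneg hrho0.le _)
      · positivity
      · exact SS_nonneg fun _ => zero_le_one
    refine lt_of_lt_of_le ?_ h1
    have h2 : ((1 - ε / 16) ^ k * N) * (rho ^ k * (1 - ε / 16) ^ k) =
        ((1 - ε / 16) * rho * (1 - ε / 16)) ^ k * N := by
      have h9 : ∀ u w : ℝ, (u ^ k * N) * (w ^ k * u ^ k) = (u * w * u) ^ k * N := by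
        intro u w
        rw [mul_pow, mul_pow]; ring
      exact h9 _ _
    rw [h2]
    apply mul_lt_mul_of_pos_right _ hNpos
    rw [hy]
    apply pow_lt_pow_left₀ _ (mul_nonneg (by linarith) hppos.le) (by omega)
    rw [hrho]
    have h3 : (1 - ε) < (1 - ε / 16) * (1 - 7 * ε / 8) * (1 - ε / 16) := by
      nlinarith only [pow_pos hε 2, pow_pos hε 3, hε1, mul_nonneg (pow_pos hε 2).le (sub_nonneg.2 hε1)]
    calc (1 - ε) * p < ((1 - ε / 16) * (1 - 7 * ε / 8) * (1 - ε / 16)) * p :=
          mul_lt_mul_of_pos_right h3 hppos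
      _ = _ := by ring
  have hXpos : (0 : ℝ) < X.card := by
    by_contra h
    have h3 : (X.card : ℝ) = 0 := le_antisymm (not_lt.1 h) (Nat.cast_nonneg _)
    rw [h3] at hX
    norm_num at hX
    linarith
  have hXlam : Real.exp (L * k) ≤ (X.card : ℝ) ^ lam := by
    have h1 : n / 2 ≤ Real.log X.card := by
      have h2 : n ≤ Real.log ((X.card : ℝ) ^ 2) := Real.log_le_log hNpos hX
      rw [Real.log_pow] at h2
      push_cast at h2
      linarith
    rw [Real.rpow_def_of_pos hXpos]
    apply Real.exp_le_exp.2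
    calc L * k = lam * n / 2 := by rw [hlamn, hΛ]; ring
      _ = lam * (n / 2) := by ring
      _ ≤ lam * Real.log X.card := mul_le_mul_of_nonneg_left h1 hlampos.le
      _ = _ := by ring
  have hXl0 : (0 : ℝ) < (X.card : ℝ) ^ lam := Real.rpow_pos_of_pos hXpos _
  have hbig : τ ^ (-lam) * N < (X.card : ℝ) ^ lam *
      (SS (col G true) q X (fun _ => 1) * (rho ^ k * beta ^ b')) := by
    have h1 : τ ^ (-lam) < Real.exp (L * k) * y := by
      have h2 : τ ^ (-lam) = Real.exp (lam * Real.log (1 / τ)) := by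
        rw [Real.rpow_def_of_pos hτpos, one_div, Real.log_inv]
        ring_nf
      have h3 : Real.exp (-(k * Real.log (2 / ε))) ≤ y := by
        rw [hy]
        have h4 : Real.exp (-(k * Real.log (2 / ε))) = (ε / 2) ^ k := by
          have : -(k * Real.log (2 / ε)) = k * Real.log (ε / 2) := by
            have h5 : Real.log (ε / 2) = - Real.log (2 / ε) := by
              rw [← Real.log_inv, inv_div]
            rw [h5]; ring
          rw [this, Real.exp_nat_mul, Real.exp_log (by positivity)]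
        rw [h4]
        apply pow_le_pow_left₀ (by positivity)
        nlinarith only [hp, hε1, hppos]
      have h5 : Real.exp (L * k) * Real.exp (-(k * Real.log (2 / ε))) = Real.exp k := by
        rw [← Real.exp_add, hL]
        ring_nf
      calc τ ^ (-lam) = Real.exp (lam * Real.log (1 / τ)) := h2
        _ < Real.exp k := Real.exp_lt_exp.2 (by linarith)
        _ = Real.exp (L * k) * Real.exp (-(k * Real.log (2 / ε))) := h5.symm
        _ ≤ Real.exp (L * k) * y := mul_le_mul_of_nonneg_left h3 (Real.exp_pos _).le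
    calc τ ^ (-lam) * N < (Real.exp (L * k) * y) * N := mul_lt_mul_of_pos_right h1 hNpos
      _ = Real.exp (L * k) * (y * N) := by ring
      _ ≤ (X.card : ℝ) ^ lam * (y * N) := mul_le_mul_of_nonneg_right hXlam (by positivity)
      _ ≤ _ := mul_le_mul_of_nonneg_left hSprod.le hXl0.le
  have hbig2 : (X.card : ℝ) ^ lam * (y * N) < (X.card : ℝ) ^ lam *
      (SS (col G true) q X (fun _ => 1) * (rho ^ k * beta ^ b')) :=
    mul_lt_mul_of_pos_left hSprod hXl0
  have hDlt : D < (X.card : ℝ) ^ lam *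
      (SS (col G true) q X (fun _ => 1) * (rho ^ k * beta ^ b')) := max_lt hbig2 hbig
  unfold Psi at hclaim
  have : (X.card : ℝ) ^ lam * SS (col G true) q X (fun _ => 1) * (rho ^ k * beta ^ b') =
      (X.card : ℝ) ^ lam * (SS (col G true) q X (fun _ => 1) * (rho ^ k * beta ^ b')) := by ring
  rw [this] at hclaim
  linarith

end Pool.Agent.H68.Pure
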