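import Mathlib
import Pool.Agent.H28.Ramsey.Basic

set_option autoImplicit false
set_option linter.unusedVariables false

/-!
Off-diagonal lower bound `log (R(a,b) - 1) ≥ a (1 + log (b / a)) / 64` for `4 ≤ a ≤ b`.
-/

namespace Pool.Agent.H68.Pure

open Finset
open Pool.Agent.H28.Ramsey

/-- The number of labellings with labels of `F` in `B`. -/
lemma card_in {α : Type*} [Fintype α] [DecidableEq α] (M : ℕ) (hM : 0 < M) (F : Finset α)
    (B : Finset (Fin M)) :
    (#((Finset.univ : Finset (α → Fin M)).filter (fun f => ∀ a ∈ F, f a ∈ B)) : ℝ) =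
      (M : ℝ) ^ Fintype.card α * ((#B : ℝ) / M) ^ #F := by
  classical
  have h0 : (Finset.univ : Finset (α → Fin M)).filter (fun f => ∀ a ∈ F, f a ∈ B) =
      Fintype.piFinset (fun a => if a ∈ F then B else Finset.univ) := by
    ext f
    simp only [Finset.mem_filter, Finset.mem_univ, true_and, Fintype.mem_piFinset]
    constructor
    · intro h a
      by_cases ha : a ∈ F
      · simp [ha, h a ha]
      · simp [ha]
    · intro h a ha
      have := h a
      simpa [ha] using this
  rw [h0, Fintype.card_piFinset]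
  have h2 : ∀ a, #(if a ∈ F then B else Finset.univ) = if a ∈ F then #B else M := by
    intro a
    split_ifs <;> simp
  simp_rw [h2]
  rw [Finset.prod_ite]
  simp only [Finset.prod_const]
  have e1 : #(Finset.univ.filter (fun a => a ∈ F)) = #F := by
    rw [Finset.filter_mem_eq_inter, Finset.univ_inter]
  have e2 : #(Finset.univ.filter (fun a => a ∉ F)) = Fintype.card α - #F := by
    rw [Finset.filter_not, Finset.filter_mem_eq_inter, Finset.univ_inter,
      Finset.card_sdiff_of_subset (Finset.subset_univ _), Finset.card_univ]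
  rw [e1, e2]
  have hM' : (M : ℝ) ≠ 0 := by
    have : (0 : ℝ) < M := by exact_mod_cast hM
    exact this.ne'
  have hle : #F ≤ Fintype.card α := Finset.card_le_univ F
  obtain ⟨r, hr⟩ : ∃ r, Fintype.card α = #F + r := ⟨Fintype.card α - #F, by omega⟩
  rw [hr]
  have e3 : #F + r - #F = r := by omega
  rw [e3]
  push_cast
  rw [pow_add, div_pow]
  field_simp

/-- Union bound for labelled pairs. -/
lemma exists_graph (n a b M : ℕ) (hM : 0 < M)
    (h : (n.choose a : ℝ) * (1 / M) ^ (a.choose 2) +
      (n.choose b : ℝ) * (((M : ℝ) - 1) / M) ^ (b.choose 2) < 1) :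
    ∃ G : SimpleGraph (Fin n), (∀ S : Finset (Fin n), ¬ G.IsNClique a S) ∧
      (∀ S : Finset (Fin n), ¬ Gᶜ.IsNClique b S) := by
  classical
  haveI : NeZero M := ⟨hM.ne'⟩
  let g : (Sym2 (Fin n) → Fin M) → SimpleGraph (Fin n) := fun χ =>
    SimpleGraph.fromRel (fun x y => χ s(x, y) = 0)
  have hg : ∀ χ x y, (g χ).Adj x y ↔ x ≠ y ∧ χ s(x, y) = 0 := by
    intro χ x y
    simp only [g, SimpleGraph.fromRel_adj, Sym2.eq_swap (a := y) (b := x), or_self]
  by_contra hcon
  push Not at hcon
  let F : Finset (Fin n) → Finset (Sym2 (Fin n)) := fun S =>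
    S.offDiag.image (Function.uncurry Sym2.mk)
  have hF : ∀ S : Finset (Fin n), #(F S) = (#S).choose 2 := by
    intro S
    exact Sym2.card_image_offDiag S
  have hFmem : ∀ S : Finset (Fin n), ∀ z ∈ F S, ∃ x ∈ S, ∃ y ∈ S, x ≠ y ∧ z = s(x, y) := by
    intro S z hz
    simp only [F, Finset.mem_image, Finset.mem_offDiag] at hz
    obtain ⟨⟨x, y⟩, ⟨h1, h2, h3⟩, rfl⟩ := hz
    exact ⟨x, h1, y, h2, h3, rfl⟩
  set E := Fintype.card (Sym2 (Fin n)) with hE
  set PA := ((Finset.univ : Finset (Fin n)).powersetCard a).biUnion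
    (fun S => (Finset.univ : Finset (Sym2 (Fin n) → Fin M)).filter
      (fun f => ∀ z ∈ F S, f z ∈ ({0} : Finset (Fin M)))) with hPA
  set PB := ((Finset.univ : Finset (Fin n)).powersetCard b).biUnion
    (fun S => (Finset.univ : Finset (Sym2 (Fin n) → Fin M)).filter
      (fun f => ∀ z ∈ F S, f z ∈ (Finset.univ.erase (0 : Fin M)))) with hPB
  have hcover : (Finset.univ : Finset (Sym2 (Fin n) → Fin M)) ⊆ PA ∪ PB := by
    intro χ _
    rw [Finset.mem_union]
    by_cases h1 : ∃ S : Finset (Fin n), (g χ).IsNClique a S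
    · left
      obtain ⟨S, hS⟩ := h1
      rw [hPA, Finset.mem_biUnion]
      refine ⟨S, by simp [hS.card_eq], ?_⟩
      simp only [Finset.mem_filter, Finset.mem_univ, true_and]
      intro z hz
      obtain ⟨x, hx, y, hy, hxy, rfl⟩ := hFmem S z hz
      rw [Finset.mem_singleton]
      exact ((hg χ x y).1 (hS.isClique hx hy hxy)).2
    · right
      push Not at h1
      obtain ⟨S, hS⟩ := hcon (g χ) h1
      rw [hPB, Finset.mem_biUnion]
      refine ⟨S, by simp [hS.card_eq], ?_⟩
      simp only [Finset.mem_filter, Finset.mem_univ, true_and]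
      intro z hz
      obtain ⟨x, hx, y, hy, hxy, rfl⟩ := hFmem S z hz
      have := hS.isClique hx hy hxy
      rw [SimpleGraph.compl_adj, hg] at this
      rw [Finset.mem_erase]
      exact ⟨fun h => this.2 ⟨hxy, h⟩, Finset.mem_univ _⟩
  have hle := (Finset.card_le_card hcover).trans (Finset.card_union_le _ _)
  have hle2 : (#(Finset.univ : Finset (Sym2 (Fin n) → Fin M)) : ℝ) ≤ #PA + #PB := by
    exact_mod_cast hle
  have hcardU : (#(Finset.univ : Finset (Sym2 (Fin n) → Fin M)) : ℝ) = (M : ℝ) ^ E := by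
    rw [Finset.card_univ, Fintype.card_fun, Fintype.card_fin]
    push_cast
    rfl
  have hMpos : (0 : ℝ) < M := by exact_mod_cast hM
  have hA : (#PA : ℝ) ≤ (M : ℝ) ^ E * ((n.choose a : ℝ) * (1 / M) ^ (a.choose 2)) := by
    have h1 : (#PA : ℝ) ≤ ∑ S ∈ (Finset.univ : Finset (Fin n)).powersetCard a,
        (#((Finset.univ : Finset (Sym2 (Fin n) → Fin M)).filter
          (fun f => ∀ z ∈ F S, f z ∈ ({0} : Finset (Fin M)))) : ℝ) := by
      exact_mod_cast Finset.card_biUnion_le
    refine h1.trans (le_of_eq ?_)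
    rw [Finset.sum_congr rfl (g := fun _ => (M : ℝ) ^ E * (1 / M) ^ (a.choose 2))]
    · rw [Finset.sum_const, Finset.card_powersetCard, Finset.card_univ, Fintype.card_fin,
        nsmul_eq_mul]
      ring
    · intro S hS
      rw [Finset.mem_powersetCard] at hS
      rw [card_in M hM, hF, hS.2, Finset.card_singleton, Nat.cast_one]
  have hB : (#PB : ℝ) ≤ (M : ℝ) ^ E * ((n.choose b : ℝ) *
      (((M : ℝ) - 1) / M) ^ (b.choose 2)) := by
    have h1 : (#PB : ℝ) ≤ ∑ S ∈ (Finset.univ : Finset (Fin n)).powersetCard b,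
        (#((Finset.univ : Finset (Sym2 (Fin n) → Fin M)).filter
          (fun f => ∀ z ∈ F S, f z ∈ (Finset.univ.erase (0 : Fin M)))) : ℝ) := by
      exact_mod_cast Finset.card_biUnion_le
    refine h1.trans (le_of_eq ?_)
    rw [Finset.sum_congr rfl (g := fun _ => (M : ℝ) ^ E * (((M : ℝ) - 1) / M) ^ (b.choose 2))]
    · rw [Finset.sum_const, Finset.card_powersetCard, Finset.card_univ, Fintype.card_fin,
        nsmul_eq_mul]
      ring
    · intro S hS
      rw [Finset.mem_powersetCard] at hS
      rw [card_in M hM, hF, hS.2, Finset.card_erase_of_mem (Finset.mem_univ _),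
        Finset.card_univ, Fintype.card_fin, Nat.cast_sub hM, Nat.cast_one]
  rw [hcardU] at hle2
  have hpow : (0 : ℝ) < (M : ℝ) ^ E := by positivity
  have h3 : (M : ℝ) ^ E * ((n.choose a : ℝ) * (1 / M) ^ (a.choose 2) +
      (n.choose b : ℝ) * (((M : ℝ) - 1) / M) ^ (b.choose 2)) < (M : ℝ) ^ E * 1 :=
    mul_lt_mul_of_pos_left h hpow
  linarith

/-- `R(a,b) > M^(a/4)` if `a M^2 ≤ b`. -/
lemma lower (a b M : ℕ) (ha : 4 ≤ a) (hM : 2 ≤ M) (hb : a * M ^ 2 ≤ b) :
    M ^ (a / 4) < ramsey a b := by
  set n := M ^ (a / 4) with hn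
  have hMR : (2 : ℝ) ≤ M := by exact_mod_cast hM
  have hMpos : (0 : ℝ) < M := by linarith
  have haR : (4 : ℝ) ≤ a := by exact_mod_cast ha
  have hbR : (a : ℝ) * M ^ 2 ≤ b := by exact_mod_cast hb
  obtain ⟨G, hG1, hG2⟩ := exists_graph n a b M (by omega) (by
    have hchoose : ∀ r : ℕ, (n.choose r : ℝ) ≤ (n : ℝ) ^ r := by
      intro r
      exact_mod_cast Nat.choose_le_pow n r
    have h1 : (n.choose a : ℝ) * (1 / M) ^ (a.choose 2) ≤ 1 / 4 := by
      have h2 : a * (a / 4) + 2 ≤ a.choose 2 := by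
        rw [Nat.choose_two_right, Nat.le_div_iff_mul_le (by norm_num)]
        have h3 : 4 * (a / 4) ≤ a := Nat.mul_div_le a 4
        obtain ⟨c, hc⟩ : ∃ c, a = c + 4 := ⟨a - 4, by omega⟩
        have h4 : a - 1 = c + 3 := by omega
        rw [h4]
        have h5 : a * (4 * (a / 4)) ≤ a * a := Nat.mul_le_mul_left _ h3
        have h6 : 2 * ((a * (a / 4) + 2) * 2) ≤ 2 * (a * (c + 3)) := by
          have h7 : 2 * ((a * (a / 4) + 2) * 2) = a * (4 * (a / 4)) + 8 := by ring
          rw [h7]
          have h8 : a * a + 8 ≤ 2 * (a * (c + 3)) := by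
            rw [hc]
            nlinarith
          omega
        omega
      have h3 : (n : ℝ) ^ a = (M : ℝ) ^ (a * (a / 4)) := by
        rw [hn]; push_cast; rw [← pow_mul, mul_comm]
      calc (n.choose a : ℝ) * (1 / M) ^ (a.choose 2)
          ≤ (M : ℝ) ^ (a * (a / 4)) * (1 / M) ^ (a * (a / 4) + 2) := by
            apply mul_le_mul _ _ (by positivity) (by positivity)
            · rw [← h3]; exact hchoose a
            · apply pow_le_pow_of_le_one (by positivity) _ h2
              rw [div_le_one hMpos]; linarith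
        _ = (1 / M) ^ 2 := by
            rw [pow_add, ← mul_assoc, ← mul_pow]
            have : (M : ℝ) * (1 / M) = 1 := by field_simp
            rw [this]; simp
        _ ≤ (1 / 2) ^ 2 := by
            apply pow_le_pow_left₀ (by positivity)
            exact one_div_le_one_div_of_le (by norm_num) hMR
        _ = 1 / 4 := by norm_num
    have h4 : (n.choose b : ℝ) * (((M : ℝ) - 1) / M) ^ (b.choose 2) ≤ 1 / 2 := by
      have e1 : ((M : ℝ) - 1) / M ≤ Real.exp (-(1 / M)) := by
        have := Real.add_one_le_exp (-(1 / (M : ℝ)))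
        have h5 : ((M : ℝ) - 1) / M = -(1 / M) + 1 := by field_simp; ring
        rw [h5]; exact this
      have e2 : (n : ℝ) ≤ Real.exp (a / 4 * (M - 1)) := by
        have h5 : (n : ℝ) = Real.exp ((a / 4 : ℕ) * Real.log M) := by
          rw [hn]
          push_cast
          rw [Real.exp_nat_mul, Real.exp_log hMpos]
        rw [h5]
        apply Real.exp_le_exp.2
        have h6 : (((a / 4 : ℕ)) : ℝ) ≤ a / 4 := Nat.cast_div_le
        have h7 := Real.log_le_sub_one_of_pos hMpos
        exact mul_le_mul h6 h7 (Real.log_nonneg (by linarith)) (by positivity)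
      have e3 : ((b.choose 2 : ℕ) : ℝ) = b * (b - 1) / 2 := by
        rw [Nat.cast_choose_two]
      have hb1 : (1 : ℝ) ≤ b := by nlinarith
      calc (n.choose b : ℝ) * (((M : ℝ) - 1) / M) ^ (b.choose 2)
          ≤ (Real.exp (a / 4 * (M - 1))) ^ b * (Real.exp (-(1 / M))) ^ (b.choose 2) := by
            apply mul_le_mul _ _ _ (by positivity)
            · exact (hchoose b).trans (pow_le_pow_left₀ (by positivity) e2 b)
            · apply pow_le_pow_left₀ _ e1
              apply div_nonneg _ hMpos.le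
              linarith
            · apply pow_nonneg
              apply div_nonneg _ hMpos.le
              linarith
        _ = Real.exp (b * (a / 4 * (M - 1)) + b * (b - 1) / 2 * (-(1 / M))) := by
            rw [← Real.exp_nat_mul, ← Real.exp_nat_mul, ← Real.exp_add, e3]
        _ ≤ Real.exp (-1) := by
            apply Real.exp_le_exp.2
            have h5 : a / 4 * ((M : ℝ) - 1) - (b - 1) / (2 * M) ≤ -1 := by
              have h6 : ((a : ℝ) * M ^ 2 - 1) / (2 * M) ≤ (b - 1) / (2 * M) := by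
                apply div_le_div_of_nonneg_right _ (by positivity)
                linarith
              have h7 : ((a : ℝ) * M ^ 2 - 1) / (2 * M) = a * M / 2 - 1 / (2 * M) := by
                field_simp
              have h8 : 1 / (2 * (M : ℝ)) ≤ 1 / 4 := by
                apply one_div_le_one_div_of_le (by norm_num); linarith
              nlinarith
            have h9 : b * (a / 4 * ((M : ℝ) - 1)) + b * (b - 1) / 2 * (-(1 / M)) =
                b * (a / 4 * ((M : ℝ) - 1) - (b - 1) / (2 * M)) := by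
              field_simp
              ring
            rw [h9]
            nlinarith
        _ ≤ 1 / 2 := by
            rw [Real.exp_neg, one_div]
            apply inv_anti₀ (by norm_num)
            linarith [Real.exp_one_gt_d9]
    linarith)
  by_contra hcon
  push Not at hcon
  rcases (arr_ramsey a b).mono hcon (Fin n) G Finset.univ (by simp) with ⟨S, _, hS⟩ | ⟨S, _, hS⟩
  · exact hG1 S hS
  · exact hG2 S hS

/-- The logarithmic lower bound. -/
theorem log_lower (a b : ℕ) (ha : 4 ≤ a) (hab : a ≤ b) :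
    (a : ℝ) * (1 + Real.log (b / a)) / 64 ≤ Real.log ((ramsey a b : ℝ) - 1) := by
  have haR : (4 : ℝ) ≤ a := by exact_mod_cast ha
  have habR : (a : ℝ) ≤ b := by exact_mod_cast hab
  have hapos : (0 : ℝ) < a := by linarith
  have hbpos : (0 : ℝ) < b := by linarith
  set β : ℝ := (b : ℝ) / a with hβ
  have hβ1 : 1 ≤ β := by rw [hβ, le_div_iff₀ hapos]; linarith
  have hβpos : 0 < β := by linarith
  have hlogβ : 0 ≤ Real.log β := Real.log_nonneg hβ1
  have hlog2 := Real.log_two_gt_d9
  have hlog2' := Real.log_two_lt_d9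
  have hlog64 : Real.log 64 = 6 * Real.log 2 := by
    rw [show (64 : ℝ) = 2 ^ 6 by norm_num, Real.log_pow]; norm_num
  have hdiv : (a : ℝ) / 4 - 3 / 4 ≤ ((a / 4 : ℕ) : ℝ) := by
    have h1 : a ≤ 4 * (a / 4) + 3 := by omega
    have h2 : (a : ℝ) ≤ 4 * ((a / 4 : ℕ) : ℝ) + 3 := by exact_mod_cast h1
    linarith
  rcases le_or_gt 64 β with h64 | h64
  · set M : ℕ := ⌊Real.sqrt β⌋₊ with hM
    have hs8 : 8 ≤ Real.sqrt β := by
      apply Real.le_sqrt_of_sq_le
      norm_num
      exact h64
    have hM1 : (M : ℝ) ≤ Real.sqrt β := Nat.floor_le (Real.sqrt_nonneg _)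
    have hM2 : Real.sqrt β - 1 ≤ M := (Nat.sub_one_lt_floor _).le
    have hM7 : (7 : ℝ) ≤ M := by linarith
    have hMn : 2 ≤ M := by
      have : (2 : ℝ) ≤ M := by linarith
      exact_mod_cast this
    have hb : a * M ^ 2 ≤ b := by
      have h1 : (M : ℝ) ^ 2 ≤ β := by
        calc (M : ℝ) ^ 2 ≤ (Real.sqrt β) ^ 2 := pow_le_pow_left₀ (by positivity) hM1 2
          _ = β := Real.sq_sqrt hβpos.le
      have h2 : (a : ℝ) * M ^ 2 ≤ b := by
        calc (a : ℝ) * M ^ 2 ≤ a * β := mul_le_mul_of_nonneg_left h1 hapos.le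
          _ = b := by rw [hβ]; field_simp
      exact_mod_cast h2
    have h1 := lower a b M ha hMn hb
    have h2 : ((M : ℝ)) ^ (a / 4) ≤ (ramsey a b : ℝ) - 1 := by
      have : M ^ (a / 4) + 1 ≤ ramsey a b := h1
      have h3 : ((M : ℝ)) ^ (a / 4) + 1 ≤ (ramsey a b : ℝ) := by exact_mod_cast this
      linarith
    have h3 : ((a / 4 : ℕ) : ℝ) * Real.log M ≤ Real.log ((ramsey a b : ℝ) - 1) := by
      rw [← Real.log_pow]
      exact Real.log_le_log (by positivity) h2
    have h4 : Real.log β / 3 ≤ Real.log M := by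
      have h5 : Real.sqrt β / 2 ≤ M := by linarith
      have h6 : Real.log (Real.sqrt β / 2) ≤ Real.log M := Real.log_le_log (by positivity) h5
      rw [Real.log_div (by positivity) (by norm_num), Real.log_sqrt hβpos.le] at h6
      have h7 : Real.log 64 ≤ Real.log β := Real.log_le_log (by norm_num) h64
      rw [hlog64] at h7
      linarith
    have h5 : Real.log 64 ≤ Real.log β := Real.log_le_log (by norm_num) h64
    rw [hlog64] at h5
    have h6 : (a : ℝ) / 16 * (Real.log β / 3) ≤ ((a / 4 : ℕ) : ℝ) * Real.log M := by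
      apply mul_le_mul _ h4 (by positivity) (Nat.cast_nonneg _)
      linarith
    have h7 : (a : ℝ) * (1 + Real.log β) / 64 ≤ (a : ℝ) / 16 * (Real.log β / 3) := by
      have h8 : (1 + Real.log β) / 64 ≤ Real.log β / 48 := by linarith
      calc (a : ℝ) * (1 + Real.log β) / 64 = a * ((1 + Real.log β) / 64) := by ring
        _ ≤ a * (Real.log β / 48) := mul_le_mul_of_nonneg_left h8 hapos.le
        _ = _ := by ring
    linarith
  · have h1 := two_pow_le_ramsey a b a (by omega) le_rfl hab
    have h2 : ((2 : ℝ)) ^ ((a - 1) / 2) ≤ (ramsey a b : ℝ) - 1 := by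
      have : 2 ^ ((a - 1) / 2) + 1 ≤ ramsey a b := h1
      have h3 : ((2 : ℝ)) ^ ((a - 1) / 2) + 1 ≤ (ramsey a b : ℝ) := by exact_mod_cast this
      linarith
    have h3 : (((a - 1) / 2 : ℕ) : ℝ) * Real.log 2 ≤ Real.log ((ramsey a b : ℝ) - 1) := by
      rw [← Real.log_pow]
      exact Real.log_le_log (by positivity) h2
    have h4 : ((a : ℝ) - 2) / 2 ≤ (((a - 1) / 2 : ℕ) : ℝ) := by
      have h5 : a ≤ 2 * ((a - 1) / 2) + 2 := by omega
      have h6 : (a : ℝ) ≤ 2 * (((a - 1) / 2 : ℕ) : ℝ) + 2 := by exact_mod_cast h5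
      linarith
    have h5 : ((a : ℝ) - 2) / 2 * (1 / 2) ≤ (((a - 1) / 2 : ℕ) : ℝ) * Real.log 2 := by
      apply mul_le_mul h4 (by linarith) (by norm_num) (Nat.cast_nonneg _)
    have h6 : Real.log β ≤ 5 := by
      have : Real.log β ≤ Real.log 64 := Real.log_le_log hβpos h64.le
      rw [hlog64] at this
      linarith
    have h7 : (a : ℝ) * (1 + Real.log β) / 64 ≤ a / 8 := by
      calc (a : ℝ) * (1 + Real.log β) / 64 ≤ a * (1 + 5) / 64 := by
            apply div_le_div_of_nonneg_right _ (by norm_num)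
            apply mul_le_mul_of_nonneg_left _ hapos.le
            linarith
        _ ≤ a / 8 := by linarith
    linarith

end Pool.Agent.H68.Pure
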