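import Mathlib
import Pool.Agent.H68.Pure.Claim

set_option autoImplicit false
set_option linter.unusedSectionVars false
set_option linter.unusedVariables false

/-!
Pure-direction inequality for Ramsey numbers, part 4: bounded clique sizes.
-/

namespace Pool.Agent.H68.Pure

open Finset
open Pool.Agent.H68.Book

variable {V : Type*} [Fintype V] [DecidableEq V]

/-- There is no clique of colour `b` with `t` vertices in `X`. -/
def NoMono (G : SimpleGraph V) (b : Bool) (X : Finset V) (t : ℕ) : Prop :=
  ∀ l : List V, l.length = t → (∀ w ∈ l, w ∈ X) → ¬ Clq G b l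

lemma NoMono.mono {G : SimpleGraph V} {b : Bool} {X Y : Finset V} {t : ℕ}
    (h : NoMono G b Y t) (hXY : X ⊆ Y) : NoMono G b X t :=
  fun l hl hw => h l hl fun w hwl => hXY (hw w hwl)

lemma NoMono.le {G : SimpleGraph V} {b : Bool} {X : Finset V} {s t : ℕ}
    (h : NoMono G b X s) (hst : s ≤ t) : NoMono G b X t := by
  intro l hl hw hcl
  apply h (l.take s) (by rw [List.length_take]; omega)
  · intro w hwl
    exact hw w (List.mem_of_mem_take hwl)
  · unfold Clq at hcl ⊢
    exact hcl.sublist (List.take_sublist s l)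

/-- Greedy choice of a clique of colour `b` when the other colour is sparse. -/
lemma greedy (G : SimpleGraph V) [DecidableRel G.Adj] (b : Bool) {X : Finset V} {t : ℕ} (ht : 1 ≤ t)
    (hX : X.Nonempty) [∀ b, DecidableRel (rl G b)]
    (hdeg : ∀ u ∈ X, (t : ℝ) * ((X.filter (fun w => rl G (!b) u w)).card + 1) ≤ X.card) :
    ∃ l : List V, l.length = t ∧ (∀ w ∈ l, w ∈ X) ∧ Clq G b l := by
  have htR : (1 : ℝ) ≤ t := by exact_mod_cast ht
  have hXpos : (0 : ℝ) < X.card := by exact_mod_cast hX.card_pos
  have hind : ∀ i : ℕ, i ≤ t → ∃ l : List V, l.length = i ∧ (∀ w ∈ l, w ∈ X) ∧ Clq G b l ∧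
      (t : ℝ) * X.card ≤ t * (X.filter (fun w => ∀ u ∈ l, rl G b u w)).card + i * X.card := by
    intro i
    induction i with
    | zero =>
        intro _
        refine ⟨[], rfl, by simp, by simp [Clq], ?_⟩
        simp
    | succ i ih =>
        intro hi
        obtain ⟨l, hl1, hl2, hl3, hl4⟩ := ih (by omega)
        set Y := X.filter (fun w => ∀ u ∈ l, rl G b u w) with hY
        have hiR : (i : ℝ) + 1 ≤ t := by exact_mod_cast hi
        have hYpos : (0 : ℝ) < Y.card := by
          by_contra h
          have h0 : (Y.card : ℝ) = 0 := le_antisymm (not_lt.1 h) (Nat.cast_nonneg _)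
          rw [h0] at hl4
          nlinarith
        have hYne : Y.Nonempty := by
          rw [← card_pos]; exact_mod_cast hYpos
        obtain ⟨w, hw⟩ := hYne
        rw [hY, mem_filter] at hw
        refine ⟨w :: l, by simp [hl1], ?_, ?_, ?_⟩
        · intro x hx
          rcases List.mem_cons.1 hx with rfl | h
          · exact hw.1
          · exact hl2 x h
        · unfold Clq at hl3 ⊢
          rw [List.pairwise_cons]
          exact ⟨fun u hu => rl_symm G b (hw.2 u hu), hl3⟩
        · set Y' := X.filter (fun x => ∀ u ∈ w :: l, rl G b u x) with hY'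
          have hsub : Y ⊆ Y' ∪ insert w (X.filter (fun x => rl G (!b) w x)) := by
            intro x hx
            rw [hY, mem_filter] at hx
            rw [mem_union, mem_insert, hY', mem_filter, mem_filter]
            by_cases hxw : x = w
            · exact Or.inr (Or.inl hxw)
            · by_cases hr : rl G b w x
              · left
                refine ⟨hx.1, fun u hu => ?_⟩
                rcases List.mem_cons.1 hu with rfl | h
                · exact hr
                · exact hx.2 u h
              · right; right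
                refine ⟨hx.1, fun h => hxw h.symm, ?_⟩
                unfold rl at hr
                push Not at hr
                have h1 := hr (fun h => hxw h.symm)
                cases b
                · simp at h1 ⊢
                  exact h1
                · simp at h1 ⊢
                  exact h1
          have h1 := (card_le_card hsub).trans (card_union_le _ _)
          have h2 := card_insert_le w (X.filter (fun x => rl G (!b) w x))
          have h3 : (Y.card : ℝ) ≤ Y'.card + ((X.filter (fun x => rl G (!b) w x)).card + 1) := by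
            exact_mod_cast h1.trans (Nat.add_le_add_left h2 _)
          have h4 := hdeg w hw.1
          have h5 := mul_le_mul_of_nonneg_left h3 (by linarith : (0 : ℝ) ≤ t)
          push_cast
          nlinarith
  obtain ⟨l, h1, h2, h3, _⟩ := hind t le_rfl
  exact ⟨l, h1, h2, h3⟩

/-- Supersaturation for one colour. -/
lemma supersatOne (G : SimpleGraph V) (c : Bool) {t : ℕ} (ht : 1 ≤ t) : ∀ (k : ℕ) (W : Finset V),
    NoMono G (!c) W t → (4 * (t : ℝ)) ^ k ≤ W.card →
    (1 / (4 * (t : ℝ))) ^ (k ^ 2) * (W.card : ℝ) ^ k ≤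
      isum (List.replicate k W) (fun l => ind (Clq G c l)) := by
  classical
  have htR : (1 : ℝ) ≤ t := by exact_mod_cast ht
  intro k
  induction k with
  | zero =>
      intro W _ _
      simp only [List.replicate_zero, isum]
      rw [ind_of (by simp [Clq])]
      norm_num
  | succ k ih =>
      intro W hno hW
      have h4t : (4 : ℝ) * t ≤ (4 * (t : ℝ)) ^ (k + 1) := by
        calc (4 : ℝ) * t = (4 * (t : ℝ)) ^ 1 := (pow_one _).symm
          _ ≤ (4 * (t : ℝ)) ^ (k + 1) := pow_le_pow_right₀ (by linarith) (by omega)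
      have hWpos : (0 : ℝ) < W.card := by linarith
      set Nb : V → Finset V := fun u => W.filter (fun w => rl G c u w) with hNb
      set A : Finset V := W.filter (fun u => (W.card : ℝ) ≤ 2 * t * ((Nb u).card + 1)) with hA
      have hAcard : (W.card : ℝ) / 2 ≤ A.card := by
        by_contra hcon
        push Not at hcon
        set B := W \ A with hB
        have hsum : ((W \ A).card : ℝ) + A.card = W.card := by
          exact_mod_cast card_sdiff_add_card_eq_card (filter_subset _ _)
        have hBcard : (W.card : ℝ) / 2 < B.card := by rw [hB]; linarith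
        have hBne : B.Nonempty := by
          rw [← card_pos]
          have : (0 : ℝ) < B.card := by linarith
          exact_mod_cast this
        obtain ⟨l, hl1, hl2, hl3⟩ := greedy G (!c) ht hBne (by
          intro u hu
          rw [Bool.not_not]
          have hu' := hu
          rw [hB, mem_sdiff, hA, mem_filter] at hu'
          push Not at hu'
          have h1 := hu'.2 hu'.1
          have h2 : ((B.filter (fun w => rl G c u w)).card : ℝ) ≤ (Nb u).card := by
            have : B.filter (fun w => rl G c u w) ⊆ Nb u := by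
              intro w hw
              rw [mem_filter] at hw
              rw [hNb]
              simp only [mem_filter]
              exact ⟨(mem_sdiff.1 hw.1).1, hw.2⟩
            exact_mod_cast card_le_card this
          have h3 : (t : ℝ) * ((B.filter (fun w => rl G c u w)).card + 1) ≤
              t * ((Nb u).card + 1) := by
            apply mul_le_mul_of_nonneg_left _ (by linarith)
            linarith
          linarith)
        exact hno l hl1 (fun w hw => (mem_sdiff.1 (hl2 w hw)).1) hl3
      have hNbig : ∀ u ∈ A, (W.card : ℝ) / (4 * t) ≤ (Nb u).card := by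
        intro u hu
        rw [hA, mem_filter] at hu
        rw [div_le_iff₀ (by positivity)]
        have := hu.2
        linarith
      have hall : ∀ u ∈ A, (1 / (4 * (t : ℝ))) ^ (k ^ 2) * ((W.card : ℝ) / (4 * t)) ^ k ≤
          isum (List.replicate k W) (fun l => ind (Clq G c (u :: l))) := by
        intro u hu
        have hsub : Nb u ⊆ W := filter_subset _ _
        have h1 := ih (Nb u) (hno.mono hsub) (by
          refine le_trans ?_ (hNbig u hu)
          rw [le_div_iff₀ (by positivity)]
          rw [pow_succ] at hW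
          exact hW)
        calc (1 / (4 * (t : ℝ))) ^ (k ^ 2) * ((W.card : ℝ) / (4 * t)) ^ k
            ≤ (1 / (4 * (t : ℝ))) ^ (k ^ 2) * ((Nb u).card : ℝ) ^ k := by
              apply mul_le_mul_of_nonneg_left _ (pow_nonneg (by positivity) _)
              exact pow_le_pow_left₀ (div_nonneg (Nat.cast_nonneg _) (by positivity))
                (hNbig u hu) _
          _ ≤ isum (List.replicate k (Nb u)) (fun l => ind (Clq G c l)) := h1
          _ ≤ isum (List.replicate k (Nb u)) (fun l => ind (Clq G c (u :: l))) := by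
              apply isum_mono_mem
              intro l hl
              by_cases hP : Clq G c l
              · rw [ind_of hP, ind_of]
                unfold Clq at *
                rw [List.pairwise_cons]
                refine ⟨fun w hw => ?_, hP⟩
                have := hl w hw
                simp only [hNb, mem_filter] at this
                exact this.2
              · rw [ind_of_not hP]
                exact ind_nonneg _
          _ ≤ _ := isum_subset _ _ _ _ hsub fun l => ind_nonneg _
      simp only [List.replicate_succ, isum]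
      have hsub : A ⊆ W := filter_subset _ _
      calc (1 / (4 * (t : ℝ))) ^ ((k + 1) ^ 2) * (W.card : ℝ) ^ (k + 1)
          ≤ ((W.card : ℝ) / 2) * ((1 / (4 * (t : ℝ))) ^ (k ^ 2) *
              ((W.card : ℝ) / (4 * t)) ^ k) := by
            have h0 : ((W.card : ℝ) / (4 * t)) ^ k =
                (1 / (4 * (t : ℝ))) ^ k * (W.card : ℝ) ^ k := by
              rw [div_eq_mul_one_div, mul_pow, mul_comm]
            have hle1 : (1 / (4 * (t : ℝ))) ≤ 1 := by
              rw [div_le_one (by positivity)]; linarith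
            have hle2 : (1 / (4 * (t : ℝ))) ≤ 1 / 2 := by
              apply one_div_le_one_div_of_le (by norm_num); linarith
            have hnn : 0 ≤ (1 / (4 * (t : ℝ))) := by positivity
            have h1 : (1 / (4 * (t : ℝ))) ^ ((k + 1) ^ 2) ≤ (1 / 2) *
                ((1 / (4 * (t : ℝ))) ^ (k ^ 2) * (1 / (4 * (t : ℝ))) ^ k) := by
              have h2 : (1 / (4 * (t : ℝ))) ^ ((k + 1) ^ 2) ≤
                  (1 / (4 * (t : ℝ))) ^ (k ^ 2 + k + 1) := by
                apply pow_le_pow_of_le_one hnn hle1
                nlinarith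
              have h2' : (1 / (4 * (t : ℝ))) ^ (k ^ 2 + k + 1) =
                  (1 / (4 * (t : ℝ))) ^ (k ^ 2) * (1 / (4 * (t : ℝ))) ^ k *
                    (1 / (4 * (t : ℝ))) := by
                rw [pow_succ, pow_add]
              rw [h2'] at h2
              have h3 : 0 ≤ (1 / (4 * (t : ℝ))) ^ (k ^ 2) * (1 / (4 * (t : ℝ))) ^ k :=
                mul_nonneg (pow_nonneg hnn _) (pow_nonneg hnn _)
              have h4 := mul_le_mul_of_nonneg_left hle2 h3
              linarith
            have h2 : (0 : ℝ) ≤ (W.card : ℝ) ^ (k + 1) := pow_nonneg (Nat.cast_nonneg _) _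
            have h3 := mul_le_mul_of_nonneg_right h1 h2
            rw [h0]
            calc _ ≤ _ := h3
              _ = _ := by rw [pow_succ (W.card : ℝ)]; ring
        _ ≤ A.card * ((1 / (4 * (t : ℝ))) ^ (k ^ 2) * ((W.card : ℝ) / (4 * t)) ^ k) :=
            mul_le_mul_of_nonneg_right hAcard
              (mul_nonneg (pow_nonneg (by positivity) _)
                (pow_nonneg (div_nonneg (Nat.cast_nonneg _) (by positivity)) _))
        _ = ∑ _u ∈ A, ((1 / (4 * (t : ℝ))) ^ (k ^ 2) * ((W.card : ℝ) / (4 * t)) ^ k) := by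
            rw [sum_const, nsmul_eq_mul]
        _ ≤ ∑ u ∈ A, isum (List.replicate k W) (fun l => ind (Clq G c (u :: l))) :=
            sum_le_sum hall
        _ ≤ _ := sum_le_sum_of_subset_of_nonneg hsub fun u _ _ =>
            isum_nonneg _ _ fun l => ind_nonneg _

/-- Elementary growth estimate. -/
lemma log_growth {A c1 : ℝ} (hA : 0 ≤ A) (hc1 : 0 < c1) : ∃ T0 : ℕ, 1 ≤ T0 ∧ ∀ t : ℕ, T0 ≤ t →
    A * (1 + Real.log (4 * t)) ≤ c1 * t := by
  obtain ⟨m, hm⟩ := exists_nat_ge (16 * A ^ 2 / c1 ^ 2)
  refine ⟨max 1 m, le_max_left _ _, fun t ht => ?_⟩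
  have ht1 : 1 ≤ t := (le_max_left _ _).trans ht
  have htm : m ≤ t := (le_max_right _ _).trans ht
  have htR : (1 : ℝ) ≤ t := by exact_mod_cast ht1
  have htm' : (m : ℝ) ≤ t := by exact_mod_cast htm
  have htpos : (0 : ℝ) < t := by linarith
  set s : ℝ := Real.sqrt t with hs
  have hspos : 0 < s := Real.sqrt_pos.2 htpos
  have hss : s * s = t := Real.mul_self_sqrt htpos.le
  have h1 : 1 + Real.log (4 * t) ≤ 4 * s := by
    have h2 : Real.log (4 * t) = 2 * Real.log (2 * s) := by
      have h3 : (4 : ℝ) * t = (2 * s) ^ 2 := by rw [← hss]; ring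
      rw [h3, Real.log_pow]
      push_cast
      ring
    have h3 := Real.log_le_sub_one_of_pos (show 0 < 2 * s by positivity)
    linarith
  have h4 : 16 * A ^ 2 ≤ c1 ^ 2 * t := by
    have h5 := hm.trans htm'
    rw [div_le_iff₀ (by positivity)] at h5
    linarith
  have h5 : 4 * A ≤ c1 * s := by
    have h6 : (4 * A) ^ 2 ≤ (c1 * s) ^ 2 := by
      calc (4 * A) ^ 2 = 16 * A ^ 2 := by ring
        _ ≤ c1 ^ 2 * t := h4
        _ = (c1 * s) ^ 2 := by rw [← hss]; ring
    exact le_of_sq_le_sq h6 (by positivity)
  calc A * (1 + Real.log (4 * t)) ≤ A * (4 * s) := mul_le_mul_of_nonneg_left h1 hA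
    _ = (4 * A) * s := by ring
    _ ≤ (c1 * s) * s := mul_le_mul_of_nonneg_right h5 hspos.le
    _ = c1 * t := by rw [mul_assoc, hss]

theorem smallK (K : ℕ) {ε1 : ℝ} (hε : 0 < ε1) :
    ∃ A : ℝ, 1 ≤ A ∧ ∀ (V : Type) [Fintype V] [DecidableEq V] (G : SimpleGraph V) (t : ℕ),
      1 ≤ t → A * (1 + Real.log (4 * t)) ≤ Real.log (Fintype.card V) →
      NoMono G true univ t → NoMono G false univ t →
      ∃ W : Finset V, W.Nonempty ∧ (Fintype.card V : ℝ) ≤ (W.card : ℝ) ^ 2 ∧
        1 / (W.card : ℝ) ≤ ε1 ∧
        ∀ (c : Bool) (k : ℕ), k ≤ K → ∃ l : List V, l.length = k ∧ Clq G c l ∧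
          ∑ v, Book.dens (col G c) W v ^ k - ε1 * Fintype.card V ≤
            ∑ v, cprod (col G c) l v := by
  set ε2 : ℝ := ε1 ^ 2 / (((K : ℝ) ^ 2 + 1) * (1 + K + K ^ 2)) with hε2
  have hε2pos : 0 < ε2 := by positivity
  set A : ℝ := 1 + (2 / ε2 + 2 * K + 2 * |Real.log (1 / ε1)|) with hA
  have hA0 : 0 ≤ A := by positivity
  have hA10 : 1 ≤ A := by
    have : 0 ≤ 2 / ε2 + 2 * K + 2 * |Real.log (1 / ε1)| := by positivity
    linarith
  refine ⟨A, hA10, ?_⟩
  intro V _ _ G t ht1 hlog hno1 hno2
  have htR : (1 : ℝ) ≤ t := by exact_mod_cast ht1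
  set lt : ℝ := Real.log (4 * t) with hlt
  have hlt0 : 0 ≤ lt := Real.log_nonneg (by linarith)
  set N : ℝ := (Fintype.card V : ℝ) with hN
  have hA1 : 0 ≤ 2 / ε2 := by positivity
  have hA2 : 0 ≤ 2 * (K : ℝ) := by positivity
  have hA3 : 0 ≤ 2 * |Real.log (1 / ε1)| := by positivity
  have hlogpos : 0 < Real.log N := lt_of_lt_of_le (by positivity) hlog
  have hgrow : A * (1 + lt) ≤ Real.log N := hlog
  have hNpos : 0 < N := by
    by_contra h2
    have h3 : N = 0 := le_antisymm (not_lt.1 h2) (Nat.cast_nonneg _)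
    rw [h3, Real.log_zero] at hlogpos
    exact lt_irrefl _ hlogpos
  have hVne : (univ : Finset V).Nonempty := by
    rw [← card_pos, card_univ]
    have h9 : (0 : ℝ) < Fintype.card V := hNpos
    exact_mod_cast h9
  set lam : ℝ := ε2 / (1 + lt) with hlam
  have hlampos : 0 < lam := by positivity
  obtain ⟨W, _, hWst, hWcard⟩ := exists_stab (col_nonneg G true) (col_le_one G true) hlampos hVne
  rw [card_univ] at hWcard
  have hWpos : (0 : ℝ) < W.card := by exact_mod_cast hWst.1.card_pos
  have hlogW : Real.log N / 2 ≤ Real.log W.card := by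
    have h1 : Real.log (Real.exp (-(1 / lam)) * N) ≤ Real.log W.card :=
      Real.log_le_log (by positivity) hWcard
    rw [Real.log_mul (Real.exp_pos _).ne' hNpos.ne', Real.log_exp] at h1
    have h2 : 1 / lam ≤ Real.log N / 2 := by
      have h3 : 1 / lam = (1 + lt) / ε2 := by rw [hlam]; field_simp
      rw [h3]
      have h4 : 2 / ε2 * (1 + lt) ≤ A * (1 + lt) := by
        apply mul_le_mul_of_nonneg_right _ (by linarith)
        rw [hA]; linarith
      have h5 : (1 + lt) / ε2 = (2 / ε2 * (1 + lt)) / 2 := by ring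
      rw [h5]
      linarith
    linarith
  have hWN : N ≤ (W.card : ℝ) ^ 2 := by
    have h1 : Real.log N ≤ Real.log ((W.card : ℝ) ^ 2) := by
      rw [Real.log_pow]
      push_cast
      linarith
    exact (Real.log_le_log_iff hNpos (by positivity)).1 h1
  have hWbig : (4 * (t : ℝ)) ^ K ≤ W.card := by
    have h1 : Real.log ((4 * (t : ℝ)) ^ K) ≤ Real.log W.card := by
      rw [Real.log_pow]
      have h2 : 2 * (K : ℝ) * (1 + lt) ≤ A * (1 + lt) := by
        apply mul_le_mul_of_nonneg_right _ (by linarith)
        rw [hA]; linarith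
      have hK0 : (0 : ℝ) ≤ K := Nat.cast_nonneg _
      nlinarith
    exact (Real.log_le_log_iff (by positivity) hWpos).1 h1
  have hWε : 1 / (W.card : ℝ) ≤ ε1 := by
    have h1 : Real.log (1 / ε1) ≤ Real.log W.card := by
      have h2 : 2 * |Real.log (1 / ε1)| * 1 ≤ A * (1 + lt) := by
        apply mul_le_mul _ (by linarith) (by norm_num) hA0
        rw [hA]; linarith
      have h3 := le_abs_self (Real.log (1 / ε1))
      linarith
    have h2 := (Real.log_le_log_iff (by positivity) hWpos).1 h1
    rw [div_le_iff₀ hε] at h2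
    rw [div_le_iff₀ hWpos]
    linarith
  refine ⟨W, hWst.1, hWN, hWε, ?_⟩
  intro c k hk
  have hkR : (k : ℝ) ≤ K := by exact_mod_cast hk
  have hk0 : (0 : ℝ) ≤ k := Nat.cast_nonneg _
  have hstc : Stab (col G c) lam W := by
    cases c
    · exact hWst.compl (col_add G true)
    · exact hWst
  have hnoc : NoMono G (!c) W t := by
    cases c
    · exact hno1.mono (subset_univ _)
    · exact hno2.mono (subset_univ _)
  have hsup := supersatOne G c ht1 k W hnoc
    (le_trans (pow_le_pow_right₀ (by linarith) hk) hWbig)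
  obtain ⟨l, hl1, hl2, hl3⟩ := peel (col_nonneg G c) (col_le_one G c) hlampos.le
    (List.replicate k W) (Clq G c) (fun _ => 1) ((1 / (4 * (t : ℝ))) ^ (k ^ 2))
    (by
      intro X hX
      rw [List.eq_of_mem_replicate hX]
      exact hstc)
    (fun _ => zero_le_one) (fun _ => le_rfl) (by positivity)
    (by rw [vol_replicate]; exact hsup)
  rw [List.length_replicate] at hl1 hl3
  refine ⟨l, hl1, hl2, ?_⟩
  have h6 : ∑ v, (1 : ℝ) * dprod (col G c) (List.replicate k W) v =
      ∑ v, Book.dens (col G c) W v ^ k := by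
    refine sum_congr rfl fun v _ => ?_
    rw [one_mul]
    simp [dprod]
  have h7 : ∑ v, (1 : ℝ) * cprod (col G c) l v = ∑ v, cprod (col G c) l v := by
    refine sum_congr rfl fun v _ => one_mul _
  rw [h6, h7] at hl3
  have herr : (k : ℝ) * (N * Real.sqrt (lam * (1 + Real.log (2 ^ k /
      (1 / (4 * (t : ℝ))) ^ (k ^ 2))))) ≤ ε1 * N := by
    have e1 : Real.log (2 ^ k / (1 / (4 * (t : ℝ))) ^ (k ^ 2)) = k * Real.log 2 + k ^ 2 * lt := by
      rw [Real.log_div (by positivity) (by positivity), Real.log_pow, Real.log_pow, one_div,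
        Real.log_inv]
      push_cast
      ring
    rw [e1]
    have e2 : 1 + (k * Real.log 2 + k ^ 2 * lt) ≤ (1 + K + K ^ 2) * (1 + lt) := by
      have h1 : Real.log 2 ≤ 1 := by
        have := Real.log_two_lt_d9
        linarith
      have h2 : (k : ℝ) * Real.log 2 ≤ K * 1 :=
        mul_le_mul hkR h1 (Real.log_nonneg (by norm_num)) (by linarith)
      have h3 : (k : ℝ) ^ 2 ≤ K ^ 2 := pow_le_pow_left₀ hk0 hkR 2
      have h4 : (k : ℝ) ^ 2 * lt ≤ K ^ 2 * lt := mul_le_mul_of_nonneg_right h3 hlt0
      have hK0 : (0 : ℝ) ≤ K := Nat.cast_nonneg _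
      nlinarith
    have e3 : lam * (1 + (k * Real.log 2 + k ^ 2 * lt)) ≤ ε1 ^ 2 / ((K : ℝ) ^ 2 + 1) := by
      calc lam * (1 + (k * Real.log 2 + k ^ 2 * lt)) ≤ lam * ((1 + K + K ^ 2) * (1 + lt)) :=
            mul_le_mul_of_nonneg_left e2 hlampos.le
        _ = ε1 ^ 2 / ((K : ℝ) ^ 2 + 1) := by
            rw [hlam, hε2]
            field_simp
    have e4 : (k : ℝ) * Real.sqrt (lam * (1 + (k * Real.log 2 + k ^ 2 * lt))) ≤ ε1 := by
      have h1 : (k : ℝ) * Real.sqrt (lam * (1 + (k * Real.log 2 + k ^ 2 * lt))) ≤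
          K * Real.sqrt (ε1 ^ 2 / ((K : ℝ) ^ 2 + 1)) :=
        mul_le_mul hkR (Real.sqrt_le_sqrt e3) (Real.sqrt_nonneg _) (by linarith)
      refine h1.trans ?_
      have hK0 : (0 : ℝ) ≤ K := Nat.cast_nonneg _
      have h2 : (K * Real.sqrt (ε1 ^ 2 / ((K : ℝ) ^ 2 + 1))) ^ 2 ≤ ε1 ^ 2 := by
        rw [mul_pow, Real.sq_sqrt (by positivity)]
        rw [mul_div_assoc', div_le_iff₀ (by positivity)]
        nlinarith [sq_nonneg ε1]
      exact le_of_sq_le_sq h2 hε.le
    calc (k : ℝ) * (N * Real.sqrt (lam * (1 + (k * Real.log 2 + k ^ 2 * lt))))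
        = ((k : ℝ) * Real.sqrt (lam * (1 + (k * Real.log 2 + k ^ 2 * lt)))) * N := by ring
      _ ≤ ε1 * N := mul_le_mul_of_nonneg_right e4 hNpos.le
  linarith

end Pool.Agent.H68.Pure
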