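import Mathlib
import Pool.Agent.H68.Pure.Large
import Pool.Agent.H68.Pure.Small
import Pool.Agent.H68.Pure.Lower
import Pool.Agent.H68.Book.Final

set_option autoImplicit false
set_option linter.unusedSectionVars false
set_option linter.unusedVariables false

/-!
Pure-direction inequality for Ramsey numbers, part 5: assembly.
-/

namespace Pool.Agent.H68.Pure

open Finset
open Pool.Agent.H68.Book
open Pool.Agent.H28.Ramsey

section general

variable {V : Type} [Fintype V] [DecidableEq V]

lemma clq_true_isNClique {G : SimpleGraph V} {l : List V} (h : Clq G true l) :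
    G.IsNClique l.length l.toFinset := by
  have hnodup : l.Nodup := by
    unfold Clq at h
    exact h.imp (fun h => h.1)
  rw [SimpleGraph.isNClique_iff]
  refine ⟨?_, List.toFinset_card_of_nodup hnodup⟩
  intro u hu w hw huw
  rw [mem_coe, List.mem_toFinset] at hu hw
  have hsym : Std.Symm (rl G true) := ⟨fun x y h => rl_symm G true h⟩
  have h1 := List.Pairwise.forall (R := rl G true) h hu hw huw
  exact h1.2.1 rfl

lemma clq_false_compl {G : SimpleGraph V} {l : List V} (h : Clq G false l) :
    Clq Gᶜ true l := by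
  unfold Clq at h ⊢
  refine h.imp fun {u w} huw => ?_
  refine ⟨huw.1, ?_⟩
  have h1 := huw.2
  simp only [SimpleGraph.compl_adj, true_iff]
  refine ⟨huw.1, fun hadj => ?_⟩
  have := h1.2 hadj
  exact absurd this (by decide)

lemma noMono_true {G : SimpleGraph V} {a : ℕ} (h : ∀ S : Finset V, ¬ G.IsNClique a S)
    (X : Finset V) : NoMono G true X a := by
  intro l hl _ hcl
  have := clq_true_isNClique hcl
  rw [hl] at this
  exact h _ this

lemma noMono_false {G : SimpleGraph V} {b : ℕ} (h : ∀ S : Finset V, ¬ Gᶜ.IsNClique b S)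
    (X : Finset V) : NoMono G false X b := by
  intro l hl _ hcl
  have := clq_true_isNClique (clq_false_compl hcl)
  rw [hl] at this
  exact h _ this

/-- The pages of a red clique in a Ramsey colouring. -/
lemma pages {G : SimpleGraph V} {a b k : ℕ} (hka : k < a)
    (hG1 : ∀ S : Finset V, ¬ G.IsNClique a S) (hG2 : ∀ S : Finset V, ¬ Gᶜ.IsNClique b S)
    {l : List V} (hl : l.length = k) (hcl : Clq G true l) :
    ∑ v, cprod (col G true) l v ≤ (ramsey (a - k) b : ℝ) - 1 := by
  classical
  set T : Finset V := univ.filter (fun v => ∀ u ∈ l, G.Adj v u) with hT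
  have h1 : ∀ v, cprod (col G true) l v ≤ ind (v ∈ T) := by
    intro v
    by_cases hvT : v ∈ T
    · rw [ind_of hvT]
      exact cprod_le_one (col_nonneg G true) (col_le_one G true) l v
    · have h2 : cprod (col G true) l v = 0 := by
        rw [hT, mem_filter] at hvT
        push Not at hvT
        obtain ⟨u, hu, hne⟩ := hvT (mem_univ _)
        unfold cprod
        apply List.prod_eq_zero
        rw [List.mem_map]
        refine ⟨u, hu, ?_⟩
        unfold col
        apply ind_of_not
        intro h3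
        exact hne (h3.1 rfl)
      rw [h2]
      exact ind_nonneg _
  have h2 : ∑ v, ind (v ∈ T) = (#T : ℝ) := by
    have h3 : ∀ v, ind (v ∈ T) = if v ∈ T then (1 : ℝ) else 0 := by
      intro v
      split_ifs with h
      · exact ind_of h
      · exact ind_of_not h
    simp only [h3]
    simp
  have h3 : ∑ v, cprod (col G true) l v ≤ #T := by
    rw [← h2]
    exact sum_le_sum fun v _ => h1 v
  have hS := clq_true_isNClique hcl
  rw [hl] at hS
  have h4 : #T < ramsey (a - k) b := by
    by_contra hcon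
    push Not at hcon
    rcases arr_ramsey (a - k) b V G T hcon with ⟨U, hU, hUc⟩ | ⟨U, hU, hUc⟩
    · have hadj : ∀ x ∈ l.toFinset, ∀ y ∈ U, G.Adj x y := by
        intro x hx y hy
        have := hU hy
        rw [hT, mem_filter] at this
        exact (this.2 x (List.mem_toFinset.1 hx)).symm
      have hdisj : Disjoint l.toFinset U := by
        rw [disjoint_left]
        intro x hx hxU
        exact (hadj x hx x hxU).ne rfl
      apply hG1 (l.toFinset ∪ U)
      rw [SimpleGraph.isNClique_iff] at hS hUc ⊢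
      refine ⟨?_, ?_⟩
      · rw [coe_union]
        intro x hx y hy hxy
        rcases hx with hx | hx
        · rcases hy with hy | hy
          · exact hS.1 hx hy hxy
          · exact hadj x hx y hy
        · rcases hy with hy | hy
          · exact (hadj y hy x hx).symm
          · exact hUc.1 hx hy hxy
      · rw [card_union_of_disjoint hdisj, hS.2, hUc.2]
        omega
    · exact hG2 U hUc
  have h5 : (#T : ℝ) + 1 ≤ (ramsey (a - k) b : ℝ) := by exact_mod_cast h4
  linarith

lemma cprod_false_le (G : SimpleGraph V) (l : List V) :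
    ∑ v, cprod (col G false) l v ≤ ∑ v, cprod (col Gᶜ true) l v + l.length := by
  classical
  have h1 : ∀ v, cprod (col G false) l v ≤ cprod (col Gᶜ true) l v + ind (v ∈ l.toFinset) := by
    intro v
    by_cases hv : v ∈ l
    · rw [ind_of (List.mem_toFinset.2 hv)]
      have h2 := cprod_le_one (col_nonneg G false) (col_le_one G false) l v
      have h3 := cprod_nonneg (col_nonneg Gᶜ true) l v
      linarith
    · have h2 : cprod (col G false) l v = cprod (col Gᶜ true) l v := by
        unfold cprod
        congr 1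
        apply List.map_congr_left
        intro u hu
        have hne : v ≠ u := fun h => hv (h ▸ hu)
        unfold col
        congr 1
        simp [SimpleGraph.compl_adj, hne]
      rw [h2]
      linarith [ind_nonneg (v ∈ l.toFinset)]
  have h2' : ∀ A : Finset V, ∑ v, ind (v ∈ A) = (#A : ℝ) := by
    intro A
    have h3 : ∀ v, ind (v ∈ A) = if v ∈ A then (1 : ℝ) else 0 := by
      intro v
      split_ifs with h
      · exact ind_of h
      · exact ind_of_not h
    simp only [h3]
    simp
  have h2 : ∑ v, ind (v ∈ l.toFinset) = (#l.toFinset : ℝ) := h2' _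
  have h3 : (#l.toFinset : ℝ) ≤ l.length := by exact_mod_cast l.toFinset_card_le
  calc ∑ v, cprod (col G false) l v ≤
        ∑ v, (cprod (col Gᶜ true) l v + ind (v ∈ l.toFinset)) := sum_le_sum fun v _ => h1 v
    _ = ∑ v, cprod (col Gᶜ true) l v + #l.toFinset := by rw [sum_add_distrib, h2]
    _ ≤ _ := by linarith

lemma dens_false_le (G : SimpleGraph V) {W : Finset V} (hW : W.Nonempty) (v : V) :
    Book.dens (col G false) W v ≤ Book.dens (col Gᶜ true) W v + 1 / W.card := by
  classical
  have hpos : (0 : ℝ) < W.card := by exact_mod_cast hW.card_pos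
  unfold Book.dens
  rw [← add_div]
  apply div_le_div_of_nonneg_right _ hpos.le
  have h1 : ∀ w, col G false v w ≤ col Gᶜ true v w + (if v = w then (1 : ℝ) else 0) := by
    intro w
    by_cases hvw : v = w
    · rw [if_pos hvw]
      have h2 := col_le_one G false v w
      have h3 := col_nonneg Gᶜ true v w
      linarith
    · rw [if_neg hvw, add_zero]
      unfold col
      apply le_of_eq
      congr 1
      simp [SimpleGraph.compl_adj, hvw]
  calc ∑ w ∈ W, col G false v w ≤
        ∑ w ∈ W, (col Gᶜ true v w + (if v = w then (1 : ℝ) else 0)) :=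
        sum_le_sum fun w _ => h1 w
    _ = ∑ w ∈ W, col Gᶜ true v w + ∑ w ∈ W, (if v = w then (1 : ℝ) else 0) := sum_add_distrib
    _ ≤ ∑ w ∈ W, col Gᶜ true v w + 1 := by
        rw [sum_ite_eq]
        split_ifs <;> simp

end general

theorem alternatives_le {ε : ℝ} (hε : 0 < ε) (hε1 : ε ≤ 1 / 2) :
    ∃ κ : ℝ, 0 < κ ∧ κ ≤ 1 / 2 ∧ ∃ n0 : ℕ, 4 ≤ n0 ∧ ∀ (a b k j : ℕ) (p : ℝ), n0 ≤ a → a ≤ b →
      ε ≤ p → p ≤ 1 - ε → (k : ℝ) ≤ κ * a → (j : ℝ) ≤ κ * a →
      ((1 - ε) * p) ^ k * ramsey a b ≤ ramsey (a - k) b ∨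
      ((1 - ε) * (1 - p)) ^ j * ramsey a b ≤ ramsey a (b - j) := by
  classical
  obtain ⟨κL, hκL, k0, hk0, hlarge⟩ := largeK hε hε1
  set ε1 : ℝ := (ε / 4) ^ k0 * (ε / 16) with hε1def
  have hε1pos : 0 < ε1 := by positivity
  have hε1small : ε1 ≤ ε ^ 2 / 64 := by
    have h1 : (ε / 4) ^ k0 ≤ (ε / 4) ^ 1 :=
      pow_le_pow_of_le_one (by positivity) (by linarith) hk0
    rw [hε1def]
    calc (ε / 4) ^ k0 * (ε / 16) ≤ (ε / 4) ^ 1 * (ε / 16) :=
          mul_le_mul_of_nonneg_right h1 (by positivity)
      _ = ε ^ 2 / 64 := by ring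
  set ε2 : ℝ := ε1 / (k0 + 1) with hε2
  have hε2pos : 0 < ε2 := by positivity
  have hk0R : (0 : ℝ) ≤ k0 := Nat.cast_nonneg _
  have hε21 : ε2 ≤ ε1 := by
    rw [hε2, div_le_iff₀ (by positivity)]
    nlinarith
  obtain ⟨A, hA1, hsmall⟩ := smallK k0 hε2pos
  obtain ⟨T0, hT01, hT0⟩ := log_growth (A := 64 * A) (c1 := 1) (by linarith) one_pos
  refine ⟨min (κL / 384) (1 / 2), by positivity, min_le_right _ _, max T0 4,
    le_max_right _ _, ?_⟩
  intro a b k j p ha hab hp0 hp1 hk hj
  have ha4 : 4 ≤ a := (le_max_right _ _).trans ha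
  have haT : T0 ≤ a := (le_max_left _ _).trans ha
  have haR : (4 : ℝ) ≤ a := by exact_mod_cast ha4
  have habR : (a : ℝ) ≤ b := by exact_mod_cast hab
  have hapos : (0 : ℝ) < a := by linarith
  have hbpos : (0 : ℝ) < b := by linarith
  rcases Nat.eq_zero_or_pos k with hk00 | hkpos
  · left; subst hk00; simp
  rcases Nat.eq_zero_or_pos j with hj00 | hjpos
  · right; subst hj00; simp
  have hka : k < a := by
    have h1 : (k : ℝ) ≤ 1 / 2 * a :=
      hk.trans (mul_le_mul_of_nonneg_right (min_le_right _ _) (by linarith))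
    have h2 : (k : ℝ) < a := by linarith
    exact_mod_cast h2
  have hja : j < a := by
    have h1 : (j : ℝ) ≤ 1 / 2 * a :=
      hj.trans (mul_le_mul_of_nonneg_right (min_le_right _ _) (by linarith))
    have h2 : (j : ℝ) < a := by linarith
    exact_mod_cast h2
  have hjb : j < b := lt_of_lt_of_le hja hab
  have htwo := two_pow_le_ramsey a b a (by omega) le_rfl hab
  set R : ℝ := (ramsey a b : ℝ) with hR
  have hRn : 2 ^ ((a - 1) / 2) ≤ ramsey a b - 1 := by omega
  have hpow1 : 1 ≤ 2 ^ ((a - 1) / 2) := Nat.one_le_two_pow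
  have hNR : ((ramsey a b - 1 : ℕ) : ℝ) = R - 1 := by
    rw [Nat.cast_sub (by omega)]
    simp [hR]
  obtain ⟨G, hG1, hG2⟩ := exists_extremal a b (by omega)
  set N : ℝ := R - 1 with hN
  have hNcard : (Fintype.card (Fin (ramsey a b - 1)) : ℝ) = N := by
    rw [Fintype.card_fin, hNR]
  have hloglow := log_lower a b ha4 hab
  set ν : ℝ := Real.log N with hν
  have hν1 : (a : ℝ) * (1 + Real.log (b / a)) / 64 ≤ ν := hloglow
  set lb : ℝ := Real.log ((b : ℝ) / a) with hlb
  have hba1 : 1 ≤ (b : ℝ) / a := by rw [le_div_iff₀ hapos]; linarith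
  have hlb0 : 0 ≤ lb := Real.log_nonneg hba1
  have hν2 : (a : ℝ) / 64 ≤ ν := by
    have h1 : (a : ℝ) / 64 ≤ a * (1 + lb) / 64 := by
      apply div_le_div_of_nonneg_right _ (by norm_num)
      nlinarith
    linarith
  have hνpos : 0 < ν := by
    have : (0 : ℝ) < a / 64 := by positivity
    linarith
  have hlog65 : Real.log 65 ≤ 5 := by
    have h1 : Real.log 65 ≤ Real.log (2 ^ 7) := Real.log_le_log (by norm_num) (by norm_num)
    rw [Real.log_pow] at h1
    have := Real.log_two_lt_d9
    push_cast at h1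
    linarith
  -- red condition
  have hredc : ∀ i : ℕ, (i : ℝ) ≤ min (κL / 384) (1 / 2) * a →
      (i : ℝ) * (1 + Real.log (1 + b / ν)) ≤ κL * ν := by
    intro i hi
    have h1 : 1 + (b : ℝ) / ν ≤ 65 * (b / a) := by
      have h2 : (b : ℝ) / ν ≤ b / (a / 64) := by
        apply div_le_div_of_nonneg_left hbpos.le (by positivity) hν2
      have h3 : (b : ℝ) / (a / 64) = 64 * (b / a) := by field_simp
      linarith
    have h4 : Real.log (1 + b / ν) ≤ 5 + lb := by
      have h5 : Real.log (1 + b / ν) ≤ Real.log (65 * (b / a)) :=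
        Real.log_le_log (by positivity) h1
      rw [Real.log_mul (by norm_num) (by positivity)] at h5
      linarith
    have hi' : (i : ℝ) ≤ κL / 384 * a :=
      hi.trans (mul_le_mul_of_nonneg_right (min_le_left _ _) hapos.le)
    have hi0 : (0 : ℝ) ≤ i := Nat.cast_nonneg _
    calc (i : ℝ) * (1 + Real.log (1 + b / ν)) ≤ i * (6 * (1 + lb)) := by
          apply mul_le_mul_of_nonneg_left _ hi0
          linarith
      _ ≤ (κL / 384 * a) * (6 * (1 + lb)) := mul_le_mul_of_nonneg_right hi' (by positivity)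
      _ = κL * (a * (1 + lb) / 64) := by ring
      _ ≤ κL * ν := mul_le_mul_of_nonneg_left hν1 hκL.le
  -- blue condition
  have hbluec : ∀ i : ℕ, (i : ℝ) ≤ min (κL / 384) (1 / 2) * a →
      (i : ℝ) * (1 + Real.log (1 + a / ν)) ≤ κL * ν := by
    intro i hi
    have h1 : 1 + (a : ℝ) / ν ≤ 65 := by
      have h2 : (a : ℝ) / ν ≤ 64 := by
        rw [div_le_iff₀ hνpos]; linarith
      linarith
    have h4 : Real.log (1 + a / ν) ≤ 5 := by
      have h5 : Real.log (1 + a / ν) ≤ Real.log 65 :=
        Real.log_le_log (by positivity) h1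
      linarith
    have hi' : (i : ℝ) ≤ κL / 384 * a :=
      hi.trans (mul_le_mul_of_nonneg_right (min_le_left _ _) hapos.le)
    have hi0 : (0 : ℝ) ≤ i := Nat.cast_nonneg _
    calc (i : ℝ) * (1 + Real.log (1 + a / ν)) ≤ i * 6 := by
          apply mul_le_mul_of_nonneg_left _ hi0
          linarith
      _ ≤ (κL / 384 * a) * 6 := mul_le_mul_of_nonneg_right hi' (by norm_num)
      _ = κL * (a / 64) := by ring
      _ ≤ κL * ν := mul_le_mul_of_nonneg_left hν2 hκL.le
  have hAν : A * (1 + Real.log (4 * b)) ≤ ν := by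
    have h1 := hT0 a haT
    have h2 : Real.log (4 * (b : ℝ)) = Real.log (4 * a) + lb := by
      rw [hlb, ← Real.log_mul (by positivity) (by positivity)]
      congr 1
      field_simp
    have h3 : 0 ≤ Real.log (4 * (a : ℝ)) := Real.log_nonneg (by linarith)
    rw [h2]
    have h4 : A * (1 + (Real.log (4 * a) + lb)) ≤ A * (1 + Real.log (4 * a)) * (1 + lb) := by
      have h5 : 0 ≤ A * (Real.log (4 * a) * lb) := by positivity
      nlinarith
    have h5 : A * (1 + Real.log (4 * a)) ≤ a / 64 := by linarith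
    calc A * (1 + (Real.log (4 * a) + lb)) ≤ A * (1 + Real.log (4 * a)) * (1 + lb) := h4
      _ ≤ (a / 64) * (1 + lb) := mul_le_mul_of_nonneg_right h5 (by linarith)
      _ = a * (1 + lb) / 64 := by ring
      _ ≤ ν := hν1
  have hN1 : 1 ≤ N := by
    have : (1 : ℝ) ≤ ((ramsey a b - 1 : ℕ) : ℝ) := by exact_mod_cast hpow1.trans hRn
    rw [hNR] at this
    exact this
  have hNpos : 0 < N := by linarith
  have hG1' : ∀ S : Finset (Fin (ramsey a b - 1)), ¬ Gᶜᶜ.IsNClique a S := by
    rw [compl_compl]; exact hG1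
  -- finishing lemmas
  have finred : ∀ y : ℝ, 0 ≤ y → y ≤ 1 → ∀ l : List (Fin (ramsey a b - 1)), l.length = k →
      Clq G true l → y * N ≤ ∑ v, cprod (col G true) l v → y * R ≤ ramsey (a - k) b := by
    intro y hy0 hy1 l hl hcl hsum
    have h1 := pages hka hG1 hG2 hl hcl
    rw [hN] at hsum
    linarith
  have finblue : ∀ y : ℝ, 0 ≤ y → y ≤ 1 → ∀ l : List (Fin (ramsey a b - 1)), l.length = j →
      Clq Gᶜ true l → y * N ≤ ∑ v, cprod (col Gᶜ true) l v → y * R ≤ ramsey a (b - j) := by
    intro y hy0 hy1 l hl hcl hsum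
    have h1 := pages hjb hG2 hG1' hl hcl
    rw [ramsey_comm (b - j) a] at h1
    rw [hN] at hsum
    linarith
  have hppos : 0 < p := by linarith
  have h1p : ε ≤ 1 - p := by linarith
  have hy1 : ∀ (x : ℝ) (i : ℕ), 0 ≤ x → x ≤ 1 → 0 ≤ ((1 - ε) * x) ^ i ∧
      ((1 - ε) * x) ^ i ≤ 1 := by
    intro x i hx0 hx1
    have h1 : 0 ≤ (1 - ε) * x := mul_nonneg (by linarith) hx0
    have h2 : (1 - ε) * x ≤ 1 := mul_le_one₀ (by linarith) hx0 hx1
    exact ⟨pow_nonneg h1 _, pow_le_one₀ h1 h2⟩
  -- the stable set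
  obtain ⟨W, hWne, hWN, hWε, hWk⟩ := hsmall (Fin (ramsey a b - 1)) G b (by omega)
    (by rw [hNcard]; exact hAν) ((noMono_true hG1 _).le hab) (noMono_false hG2 _)
  rw [hNcard] at hWN
  have hWpos : (0 : ℝ) < W.card := by exact_mod_cast hWne.card_pos
  have hWleN : (W.card : ℝ) ≤ N := by
    rw [← hNcard]
    exact_mod_cast card_le_univ W
  have hNbig : (k0 : ℝ) ≤ ε1 * N := by
    rw [div_le_iff₀ hWpos] at hWε
    have h1 : 1 ≤ ε2 * N := hWε.trans (mul_le_mul_of_nonneg_left hWleN hε2pos.le)
    have h2 : ε2 * N * (k0 + 1) = ε1 * N := by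
      rw [hε2]; field_simp
    nlinarith
  have hWε1 : 1 / (W.card : ℝ) ≤ ε1 := hWε.trans hε21
  -- power gap
  have gap : ∀ (x : ℝ) (i : ℕ), ε / 4 ≤ x → x ≤ 1 → 1 ≤ i → i ≤ k0 →
      ((1 - ε / 8) * x) ^ i ≤ x ^ i - 2 * ε1 := by
    intro x i hx0 hx1 hi1 hi2
    have h0 : 0 ≤ 1 - ε / 8 := by linarith
    have hx : 0 < x := by linarith
    have h1 : (1 - ε / 8) ^ i ≤ 1 - ε / 8 := by
      calc (1 - ε / 8) ^ i ≤ (1 - ε / 8) ^ 1 :=
            pow_le_pow_of_le_one h0 (by linarith) hi1
        _ = _ := pow_one _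
    have h2 : (ε / 4) ^ k0 ≤ x ^ i := by
      calc (ε / 4) ^ k0 ≤ (ε / 4) ^ i :=
            pow_le_pow_of_le_one (by positivity) (by linarith) hi2
        _ ≤ x ^ i := pow_le_pow_left₀ (by positivity) hx0 i
    have h3 : 0 ≤ x ^ i := pow_nonneg hx.le _
    rw [mul_pow]
    have h4 : (1 - ε / 8) ^ i * x ^ i ≤ (1 - ε / 8) * x ^ i := mul_le_mul_of_nonneg_right h1 h3
    have h5 : 2 * ε1 = (ε / 4) ^ k0 * (ε / 8) := by rw [hε1def]; ring
    rw [h5]
    have h6 : (ε / 4) ^ k0 * (ε / 8) ≤ x ^ i * (ε / 8) :=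
      mul_le_mul_of_nonneg_right h2 (by positivity)
    linarith
  have smallred : ∀ x : ℝ, ε / 4 ≤ x → x ≤ 1 → k ≤ k0 →
      x ^ k * N ≤ ∑ v, Book.dens (col G true) W v ^ k →
      ∃ l : List (Fin (ramsey a b - 1)), l.length = k ∧ Clq G true l ∧
        ((1 - ε / 8) * x) ^ k * N ≤ ∑ v, cprod (col G true) l v := by
    intro x hx0 hx1 hkk hsum
    obtain ⟨l, hl1, hl2, hl3⟩ := hWk true k hkk
    refine ⟨l, hl1, hl2, ?_⟩
    rw [hNcard] at hl3
    have h1 := mul_le_mul_of_nonneg_right (gap x k hx0 hx1 hkpos hkk) hNpos.le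
    have h2 : ε2 * N ≤ ε1 * N := mul_le_mul_of_nonneg_right hε21 hNpos.le
    have h3 : 0 ≤ ε1 * N := by positivity
    linarith
  have smallblue : ∀ x : ℝ, ε / 4 ≤ x → x ≤ 1 → j ≤ k0 →
      x ^ j * N ≤ ∑ v, Book.dens (col G false) W v ^ j →
      ∃ l : List (Fin (ramsey a b - 1)), l.length = j ∧ Clq Gᶜ true l ∧
        ((1 - ε / 8) * x) ^ j * N ≤ ∑ v, cprod (col Gᶜ true) l v := by
    intro x hx0 hx1 hjj hsum
    obtain ⟨l, hl1, hl2, hl3⟩ := hWk false j hjj
    refine ⟨l, hl1, clq_false_compl hl2, ?_⟩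
    rw [hNcard] at hl3
    have h1 := mul_le_mul_of_nonneg_right (gap x j hx0 hx1 hjpos hjj) hNpos.le
    have h2 : ε2 * N ≤ ε1 * N := mul_le_mul_of_nonneg_right hε21 hNpos.le
    have h4 := cprod_false_le G l
    rw [hl1] at h4
    have h5 : (j : ℝ) ≤ k0 := by exact_mod_cast hjj
    linarith
  -- densities
  have hdd : ∀ v, Book.dens (col G false) W v = 1 - Book.dens (col G true) W v := fun v =>
    dens_compl (c := col G true) (c' := col G false) (col_add G true) hWne v
  have hd0 : ∀ v, 0 ≤ Book.dens (col G true) W v := fun v =>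
    Book.dens_nonneg (col_nonneg G true) W v
  have hd1 : ∀ v, Book.dens (col G true) W v ≤ 1 := fun v =>
    Book.dens_le_one (col_le_one G true) W v
  set ZR := univ.filter (fun v => (1 - ε / 2) * p ≤ Book.dens (col G true) W v) with hZR
  set ZB := univ.filter (fun v => ¬ (1 - ε / 2) * p ≤ Book.dens (col G true) W v) with hZB
  have hZsum : (ZR.card : ℝ) + ZB.card = N := by
    have h1 := card_filter_add_card_filter_not (s := (univ : Finset (Fin (ramsey a b - 1))))
      (fun v => (1 - ε / 2) * p ≤ Book.dens (col G true) W v)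
    rw [card_univ] at h1
    rw [← hNcard]
    exact_mod_cast h1
  have hZBd : ∀ v ∈ ZB, 1 - p + ε ^ 2 / 2 ≤ Book.dens (col G false) W v := by
    intro v hv
    rw [hZB, mem_filter] at hv
    have h1 := hv.2
    push Not at h1
    rw [hdd]
    nlinarith
  have hZBc : ∀ v ∈ ZB, (1 - ε / 2) * (1 - p) ≤ Book.dens (col Gᶜ true) W v := by
    intro v hv
    have h1 := hZBd v hv
    have h2 := dens_false_le G hWne v
    nlinarith
  -- large blue
  have largeblue : k0 ≤ j → ε / 4 * N ≤ ZB.card →
      ((1 - ε) * (1 - p)) ^ j * R ≤ ramsey a (b - j) := by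
    intro hjk hcard
    obtain ⟨l, hl1, _, hl2, hl3⟩ := hlarge (Fin (ramsey a b - 1)) Gᶜ a j (1 - p) W h1p
      (by linarith)
      (by rw [hNcard]; exact hνpos)
      hjk (by rw [hNcard]; exact hbluec j hj) (by rw [hNcard]; exact hWN)
      (by
        intro l hl hw hcl
        exact (noMono_false hG1' univ) l hl (fun w _ => mem_univ w) hcl)
      ⟨ZB, by rw [hNcard]; exact hcard, hZBc⟩
    rw [hNcard] at hl3
    obtain ⟨q1, q2⟩ := hy1 (1 - p) j (by linarith) (by linarith)
    exact finblue _ q1 q2 l hl1 hl2 hl3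
  -- large red
  have largered : k0 ≤ k → ε / 4 * N ≤ ZR.card →
      ((1 - ε) * p) ^ k * R ≤ ramsey (a - k) b := by
    intro hkk hcard
    obtain ⟨l, hl1, _, hl2, hl3⟩ := hlarge (Fin (ramsey a b - 1)) G b k p W hp0
      (by linarith)
      (by rw [hNcard]; exact hνpos)
      hkk (by rw [hNcard]; exact hredc k hk) (by rw [hNcard]; exact hWN)
      (by
        intro l hl hw hcl
        exact (noMono_false hG2 univ) l hl (fun w _ => mem_univ w) hcl)
      ⟨ZR, by rw [hNcard]; exact hcard, by
        intro v hv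
        rw [hZR, mem_filter] at hv
        exact hv.2⟩
    rw [hNcard] at hl3
    obtain ⟨q1, q2⟩ := hy1 p k (by linarith) (by linarith)
    exact finred _ q1 q2 l hl1 hl2 hl3
  -- small blue from many vertices
  have hsb : ∀ x : ℝ, ε / 4 ≤ x → x ≤ 1 → (1 - ε) * (1 - p) ≤ (1 - ε / 8) * x → j ≤ k0 →
      x ^ j * N ≤ ∑ v, Book.dens (col G false) W v ^ j →
      ((1 - ε) * (1 - p)) ^ j * R ≤ ramsey a (b - j) := by
    intro x hx0 hx1 hxx hjj hsum
    obtain ⟨l, hl1, hl2, hl3⟩ := smallblue x hx0 hx1 hjj hsum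
    obtain ⟨q1, q2⟩ := hy1 (1 - p) j (by linarith) (by linarith)
    refine finblue _ q1 q2 l hl1 hl2 (le_trans ?_ hl3)
    apply mul_le_mul_of_nonneg_right _ hNpos.le
    exact pow_le_pow_left₀ (mul_nonneg (by linarith) (by linarith)) hxx j
  rcases le_or_gt k0 k with hkk | hkk
  · -- k large
    rcases le_or_gt (ε / 4 * N) ZR.card with hz | hz
    · left; exact largered hkk hz
    · right
      have hZBcard : (1 - ε / 4) * N ≤ ZB.card := by linarith
      rcases le_or_gt k0 j with hjj | hjj
      · apply largeblue hjj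
        refine le_trans ?_ hZBcard
        apply mul_le_mul_of_nonneg_right _ hNpos.le
        linarith
      · apply hsb ((1 - ε / 4) * (1 - p))
        · nlinarith
        · exact mul_le_one₀ (by linarith) (by linarith) (by linarith)
        · nlinarith [mul_nonneg (show 0 ≤ 1 - p by linarith) (sq_nonneg ε)]
        · exact hjj.le
        · have h1 : ((1 - ε / 4) * (1 - p)) ^ j ≤ (1 - ε / 4) * (1 - p) ^ j := by
            rw [mul_pow]
            apply mul_le_mul_of_nonneg_right _ (pow_nonneg (by linarith) _)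
            calc (1 - ε / 4) ^ j ≤ (1 - ε / 4) ^ 1 :=
                  pow_le_pow_of_le_one (by linarith) (by linarith) hjpos
              _ = _ := pow_one _
          have h2 : ZB.card * (1 - p) ^ j ≤ ∑ v, Book.dens (col G false) W v ^ j := by
            calc ZB.card * (1 - p) ^ j = ∑ _v ∈ ZB, (1 - p) ^ j := by
                  rw [sum_const, nsmul_eq_mul]
              _ ≤ ∑ v ∈ ZB, Book.dens (col G false) W v ^ j := by
                  refine sum_le_sum fun v hv => ?_
                  apply pow_le_pow_left₀ (by linarith)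
                  have := hZBd v hv
                  nlinarith [sq_nonneg ε]
              _ ≤ _ := sum_le_sum_of_subset_of_nonneg (subset_univ _) fun v _ _ => by
                  apply pow_nonneg
                  rw [hdd]
                  linarith [hd1 v]
          calc ((1 - ε / 4) * (1 - p)) ^ j * N ≤ ((1 - ε / 4) * (1 - p) ^ j) * N :=
                mul_le_mul_of_nonneg_right h1 hNpos.le
            _ = ((1 - ε / 4) * N) * (1 - p) ^ j := by ring
            _ ≤ ZB.card * (1 - p) ^ j :=
                mul_le_mul_of_nonneg_right hZBcard (pow_nonneg (by linarith) _)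
            _ ≤ _ := h2
  · -- k small
    set xr : ℝ := (1 - 3 * ε / 4) * p with hxr
    have hxr0 : ε / 4 ≤ xr := by rw [hxr]; nlinarith
    have hxr1 : xr ≤ 1 := mul_le_one₀ (by linarith) hppos.le (by linarith)
    rcases le_or_gt (xr ^ k * N) (∑ v, Book.dens (col G true) W v ^ k) with hs | hs
    · left
      obtain ⟨l, hl1, hl2, hl3⟩ := smallred xr hxr0 hxr1 hkk.le hs
      obtain ⟨q1, q2⟩ := hy1 p k (by linarith) (by linarith)
      refine finred _ q1 q2 l hl1 hl2 (le_trans ?_ hl3)
      apply mul_le_mul_of_nonneg_right _ hNpos.le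
      apply pow_le_pow_left₀ (mul_nonneg (by linarith) (by linarith))
      rw [hxr]
      nlinarith [mul_nonneg hppos.le (sq_nonneg ε)]
    · right
      rcases le_or_gt k0 j with hjj | hjj
      · apply largeblue hjj
        by_contra hcon
        push Not at hcon
        have hZRcard : (1 - ε / 4) * N ≤ ZR.card := by linarith
        have h1 : xr ^ k ≤ (1 - ε / 4) * ((1 - ε / 2) * p) ^ k := by
          have h2 : xr ≤ (1 - ε / 4) * ((1 - ε / 2) * p) := by
            rw [hxr]
            nlinarith [mul_nonneg hppos.le (sq_nonneg ε)]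
          calc xr ^ k ≤ ((1 - ε / 4) * ((1 - ε / 2) * p)) ^ k :=
                pow_le_pow_left₀ (by linarith) h2 k
            _ = (1 - ε / 4) ^ k * ((1 - ε / 2) * p) ^ k := mul_pow _ _ _
            _ ≤ (1 - ε / 4) ^ 1 * ((1 - ε / 2) * p) ^ k := by
                apply mul_le_mul_of_nonneg_right
                · exact pow_le_pow_of_le_one (by linarith) (by linarith) hkpos
                · exact pow_nonneg (mul_nonneg (by linarith) hppos.le) _
            _ = _ := by rw [pow_one]
        have h3 : ZR.card * ((1 - ε / 2) * p) ^ k ≤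
            ∑ v, Book.dens (col G true) W v ^ k := by
          calc ZR.card * ((1 - ε / 2) * p) ^ k = ∑ _v ∈ ZR, ((1 - ε / 2) * p) ^ k := by
                rw [sum_const, nsmul_eq_mul]
            _ ≤ ∑ v ∈ ZR, Book.dens (col G true) W v ^ k := by
                refine sum_le_sum fun v hv => ?_
                rw [hZR, mem_filter] at hv
                exact pow_le_pow_left₀ (mul_nonneg (by linarith) hppos.le) hv.2 k
            _ ≤ _ := sum_le_sum_of_subset_of_nonneg (subset_univ _) fun v _ _ =>
                pow_nonneg (hd0 v) _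
        have h4 : xr ^ k * N ≤ ZR.card * ((1 - ε / 2) * p) ^ k := by
          calc xr ^ k * N ≤ ((1 - ε / 4) * ((1 - ε / 2) * p) ^ k) * N :=
                mul_le_mul_of_nonneg_right h1 hNpos.le
            _ = ((1 - ε / 4) * N) * ((1 - ε / 2) * p) ^ k := by ring
            _ ≤ _ := mul_le_mul_of_nonneg_right hZRcard
                (pow_nonneg (mul_nonneg (by linarith) hppos.le) _)
        linarith
      · -- both small: convexity
        apply hsb (1 - p) (by linarith) (by linarith) (by nlinarith) hjj.le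
        -- the weights
        set al : ℝ := p / k with hal
        set be : ℝ := (1 - p) / j with hbe
        have hkR : (1 : ℝ) ≤ k := by exact_mod_cast hkpos
        have hjR : (1 : ℝ) ≤ j := by exact_mod_cast hjpos
        have h1p' : 0 < 1 - p := by linarith
        have hal0 : 0 < al := by positivity
        have hbe0 : 0 < be := by positivity
        have hpt : ∀ v, al + be ≤ al * (Book.dens (col G true) W v / p) ^ k +
            be * (Book.dens (col G false) W v / (1 - p)) ^ j := by
          intro v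
          set d := Book.dens (col G true) W v
          have hd0' : 0 ≤ d := hd0 v
          have hd1' : d ≤ 1 := hd1 v
          rw [hdd v]
          have b1 : 1 + (k : ℝ) * (d / p - 1) ≤ (1 + (d / p - 1)) ^ k := by
            apply one_add_mul_le_pow
            have : 0 ≤ d / p := by positivity
            linarith
          have b2 : 1 + (j : ℝ) * ((1 - d) / (1 - p) - 1) ≤ (1 + ((1 - d) / (1 - p) - 1)) ^ j := by
            apply one_add_mul_le_pow
            have : 0 ≤ (1 - d) / (1 - p) := div_nonneg (by linarith) h1p'.le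
            linarith
          have e1 : 1 + (d / p - 1) = d / p := by ring
          have e2 : 1 + ((1 - d) / (1 - p) - 1) = (1 - d) / (1 - p) := by ring
          rw [e1] at b1
          rw [e2] at b2
          have m1 := mul_le_mul_of_nonneg_left b1 hal0.le
          have m2 := mul_le_mul_of_nonneg_left b2 hbe0.le
          have e3 : al * (1 + (k : ℝ) * (d / p - 1)) + be * (1 + (j : ℝ) *
              ((1 - d) / (1 - p) - 1)) = al + be := by
            rw [hal, hbe]
            field_simp
            ring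
          linarith
        have hsumpt : (al + be) * N ≤ al * (∑ v, (Book.dens (col G true) W v / p) ^ k) +
            be * (∑ v, (Book.dens (col G false) W v / (1 - p)) ^ j) := by
          rw [mul_sum, mul_sum, ← sum_add_distrib]
          calc (al + be) * N = ∑ _v : Fin (ramsey a b - 1), (al + be) := by
                rw [sum_const, card_univ, nsmul_eq_mul, hNcard]; ring
            _ ≤ _ := sum_le_sum fun v _ => hpt v
        have e4 : ∑ v, (Book.dens (col G true) W v / p) ^ k =
            (∑ v, Book.dens (col G true) W v ^ k) / p ^ k := by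
          rw [sum_div]
          exact sum_congr rfl fun v _ => div_pow _ _ _
        have e5 : ∑ v, (Book.dens (col G false) W v / (1 - p)) ^ j =
            (∑ v, Book.dens (col G false) W v ^ j) / (1 - p) ^ j := by
          rw [sum_div]
          exact sum_congr rfl fun v _ => div_pow _ _ _
        have h6 : (∑ v, Book.dens (col G true) W v ^ k) / p ^ k ≤ N := by
          rw [div_le_iff₀ (by positivity)]
          have h7 : xr ^ k ≤ p ^ k := by
            apply pow_le_pow_left₀ (by linarith)
            rw [hxr]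
            nlinarith
          have h8 := mul_le_mul_of_nonneg_right h7 hNpos.le
          linarith
        rw [e4, e5] at hsumpt
        have h7 := mul_le_mul_of_nonneg_left h6 hal0.le
        have h8 : be * N ≤ be * ((∑ v, Book.dens (col G false) W v ^ j) / (1 - p) ^ j) := by
          linarith
        have h9 := le_of_mul_le_mul_left h8 hbe0
        rw [le_div_iff₀ (by positivity)] at h9
        linarith

theorem alternatives {ε : ℝ} (hε : 0 < ε) (hε1 : ε ≤ 1 / 2) :
    ∃ κ : ℝ, 0 < κ ∧ κ ≤ 1 / 2 ∧ ∃ n0 : ℕ, 4 ≤ n0 ∧ ∀ (a b k j : ℕ) (p : ℝ), n0 ≤ a → n0 ≤ b →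
      ε ≤ p → p ≤ 1 - ε → (k : ℝ) ≤ κ * min (a : ℝ) b → (j : ℝ) ≤ κ * min (a : ℝ) b →
      ((1 - ε) * p) ^ k * ramsey a b ≤ ramsey (a - k) b ∨
      ((1 - ε) * (1 - p)) ^ j * ramsey a b ≤ ramsey a (b - j) := by
  obtain ⟨κ, hκ, hκ2, n0, hn0, hmain⟩ := alternatives_le hε hε1
  refine ⟨κ, hκ, hκ2, n0, hn0, ?_⟩
  intro a b k j p ha hb hp0 hp1 hk hj
  rcases le_total a b with hab | hab
  · have habR : (a : ℝ) ≤ b := by exact_mod_cast hab
    rw [min_eq_left habR] at hk hj
    exact hmain a b k j p ha hab hp0 hp1 hk hj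
  · have habR : (b : ℝ) ≤ a := by exact_mod_cast hab
    rw [min_eq_right habR] at hk hj
    have h := hmain b a j k (1 - p) hb hab (by linarith) (by linarith) hj hk
    rw [ramsey_comm b a, ramsey_comm (b - j) a, ramsey_comm b (a - k)] at h
    have e : 1 - (1 - p) = p := by ring
    rw [e] at h
    exact h.symm

end Pool.Agent.H68.Pure
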