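import Mathlib
import Pool.Agent.H68.Pure.Assembly

set_option autoImplicit false
set_option linter.unusedSectionVars false
set_option linter.unusedVariables false

/-!
Pure-direction inequality for Ramsey numbers, part 6: the additive form and the diagonal case.
-/

namespace Pool.Agent.H68.Pure

open Finset
open Pool.Agent.H28.Ramsey

/-- From the alternatives for all `p` to the additive inequality. -/
theorem additive {ε : ℝ} (hε : 0 < ε) :
    ∃ κ : ℝ, 0 < κ ∧ ∃ n0 : ℕ, ∀ (a b k j : ℕ), n0 ≤ a → n0 ≤ b →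
      1 ≤ k → 1 ≤ j → (k : ℝ) ≤ κ * min (a : ℝ) b → (j : ℝ) ≤ κ * min (a : ℝ) b →
      1 - ε ≤ ((ramsey (a - k) b : ℝ) / ramsey a b) ^ (1 / (k : ℝ)) +
        ((ramsey a (b - j) : ℝ) / ramsey a b) ^ (1 / (j : ℝ)) := by
  -- reduce to small parameters
  set δ : ℝ := min (ε / 4) (1 / 4) with hδ
  have hδpos : 0 < δ := by positivity
  have hδε : δ ≤ ε / 4 := min_le_left _ _
  have hδ4 : δ ≤ 1 / 4 := min_le_right _ _
  obtain ⟨κ, hκ, hκ2, n0, hn0, hmain⟩ := alternatives (ε := δ) hδpos (by linarith)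
  refine ⟨κ, hκ, n0, ?_⟩
  intro a b k j ha hb hk1 hj1 hk hj
  have haR : (0 : ℝ) ≤ a := Nat.cast_nonneg _
  have hbR : (0 : ℝ) ≤ b := Nat.cast_nonneg _
  have hRpos : (0 : ℝ) < ramsey a b := by exact_mod_cast ramsey_pos a b
  set R : ℝ := (ramsey a b : ℝ) with hR
  have hkR : (0 : ℝ) < k := by exact_mod_cast hk1
  have hjR : (0 : ℝ) < j := by exact_mod_cast hj1
  set x : ℝ := ((ramsey (a - k) b : ℝ) / R) ^ (1 / (k : ℝ)) with hx
  set y : ℝ := ((ramsey a (b - j) : ℝ) / R) ^ (1 / (j : ℝ)) with hy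
  have hx0 : 0 ≤ x := Real.rpow_nonneg (by positivity) _
  have hy0 : 0 ≤ y := Real.rpow_nonneg (by positivity) _
  have hxk : x ^ k = (ramsey (a - k) b : ℝ) / R := by
    rw [hx, ← Real.rpow_natCast, ← Real.rpow_mul (by positivity)]
    have : 1 / (k : ℝ) * k = 1 := by field_simp
    rw [this, Real.rpow_one]
  have hyj : y ^ j = (ramsey a (b - j) : ℝ) / R := by
    rw [hy, ← Real.rpow_natCast, ← Real.rpow_mul (by positivity)]
    have : 1 / (j : ℝ) * j = 1 := by field_simp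
    rw [this, Real.rpow_one]
  by_contra hcon
  push Not at hcon
  -- choose p
  set p : ℝ := x + 2 * δ with hp
  have hp0 : δ ≤ p := by rw [hp]; linarith
  have hp1 : p ≤ 1 - δ := by
    rw [hp]
    linarith
  have h1p : y + 2 * δ ≤ 1 - p := by rw [hp]; linarith
  rcases hmain a b k j p ha hb hp0 hp1 hk hj with h | h
  · have h1 : ((1 - δ) * p) ^ k ≤ x ^ k := by
      rw [hxk, le_div_iff₀ hRpos]
      exact h
    have h2 : (1 - δ) * p ≤ x := by
      by_contra h3
      push Not at h3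
      have := pow_lt_pow_left₀ h3 hx0 (by omega : k ≠ 0)
      linarith
    have hx1 : x ≤ 1 := by linarith
    rw [hp] at h2
    nlinarith
  · have h1 : ((1 - δ) * (1 - p)) ^ j ≤ y ^ j := by
      rw [hyj, le_div_iff₀ hRpos]
      exact h
    have h2 : (1 - δ) * (1 - p) ≤ y := by
      by_contra h3
      push Not at h3
      have := pow_lt_pow_left₀ h3 hy0 (by omega : j ≠ 0)
      linarith
    have h3 : (1 - δ) * (y + 2 * δ) ≤ y :=
      (mul_le_mul_of_nonneg_left h1p (by linarith)).trans h2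
    have hy1 : y ≤ 1 := by linarith
    nlinarith

/-- The diagonal case. -/
theorem diagonal {ε : ℝ} (hε : 0 < ε) :
    ∃ κ : ℝ, 0 < κ ∧ ∃ n0 : ℕ, ∀ (l k : ℕ), n0 ≤ l → (k : ℝ) ≤ κ * l →
      (ramsey l l : ℝ) ≤ (2 + ε) ^ k * ramsey (l - k) l := by
  set δ : ℝ := min (ε / (2 * (2 + ε))) (1 / 2) with hδ
  have hδpos : 0 < δ := by positivity
  have hδ1 : δ ≤ ε / (2 * (2 + ε)) := min_le_left _ _
  have hδ2 : δ ≤ 1 / 2 := min_le_right _ _
  obtain ⟨κ, hκ, n0, hmain⟩ := additive (ε := δ) hδpos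
  refine ⟨κ, hκ, n0, ?_⟩
  intro l k hl hk
  rcases Nat.eq_zero_or_pos k with rfl | hk1
  · simp
  have h := hmain l l k k hl hl hk1 hk1 (by rw [min_self]; exact hk) (by rw [min_self]; exact hk)
  rw [Book.ramsey_comm l (l - k)] at h
  have hRpos : (0 : ℝ) < ramsey l l := by exact_mod_cast ramsey_pos l l
  set R : ℝ := (ramsey l l : ℝ) with hR
  set x : ℝ := ((ramsey (l - k) l : ℝ) / R) ^ (1 / (k : ℝ)) with hx
  have hkR : (0 : ℝ) < k := by exact_mod_cast hk1
  have hx0 : 0 ≤ x := Real.rpow_nonneg (by positivity) _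
  have hxk : x ^ k = (ramsey (l - k) l : ℝ) / R := by
    rw [hx, ← Real.rpow_natCast, ← Real.rpow_mul (by positivity)]
    have : 1 / (k : ℝ) * k = 1 := by field_simp
    rw [this, Real.rpow_one]
  have hx1 : 1 ≤ (2 + ε) * x := by
    have h1 : (1 - δ) / 2 ≤ x := by linarith
    have h2 : 1 ≤ (2 + ε) * ((1 - δ) / 2) := by
      rw [le_div_iff₀ (by positivity)] at hδ1
      nlinarith
    have h3 : (2 + ε) * ((1 - δ) / 2) ≤ (2 + ε) * x :=
      mul_le_mul_of_nonneg_left h1 (by positivity)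
    linarith
  have h4 : 1 ≤ (2 + ε) ^ k * ((ramsey (l - k) l : ℝ) / R) := by
    rw [← hxk, ← mul_pow]
    exact one_le_pow₀ hx1
  rw [mul_div_assoc', le_div_iff₀ hRpos] at h4
  linarith

end Pool.Agent.H68.Pure
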